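import Pool.Agent.Helper96_MWV.FilR
import Pool.Agent.Helper97_MVD.INS

/-!
# Thin runs from canonical words (MP_23468a_al)

The induction on the number of lights and the number of markers, and the bridge from canonical words
(lights `3e+1`, markers `3(i+2)`, isolated pins) to arbitrary contexts.
-/

set_option autoImplicit false

namespace Pool.Agent.Helper96_MWV

open Pool.Agent.Helper14_MV Pool.Agent.Helper2_MV Pool.Agent.MVO Pool.Agent.MVO.Sys
  Pool.Agent.MWL Pool.Agent.MWS Pool.Agent.MWN Pool.Agent.MWNP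

/-- `LfB` for `m` lights -/
def LfBm (n m : ℕ) (β : FIC) : Prop := ∀ (z c : ℕ → ℕ) (p q : List ℕ) (x : ℕ),
  Adm m z c p q x →
    RR β (p ++ (P 1 x ++ (wd z (fun i => P (n + 1) (c i)) m ++ (P 1 x ++ q))))
      (p ++ (P (n + 1) x ++ (wd z (fun i => P (n + 1) (c i)) m ++ (P (n + 1) x ++ q))))

/-- main block `L`, isolated pins in the order `R` -/
def Bq (R L : List ℕ) : List ℕ := MVD.Bw R (fun r => if r = 0 then L else [3 * (r - 1) + 1])

/-- the thin letter `0` with the content `c` is thick -/
def Th (n : ℕ) (β : FIC) (R c : List ℕ) : Prop :=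
  RR β (Bq R (0 :: (c ++ [0]))) (Bq R (P (n + 1) 0 ++ (c ++ P (n + 1) 0)))

/-- canonical words: every light `3d+1`, `d < m`, once; markers `3j`, `j ≥ 2`, in one block `a^(n+1)` -/
structure Cn (n m : ℕ) (c : List ℕ) : Prop where
  li : ∀ d < m, c.count (3 * d + 1) = 1
  lo : ∀ a ∈ c, (∃ d < m, a = 3 * d + 1) ∨ (a % 3 = 0 ∧ 6 ≤ a)
  bl : ∀ a ∈ c, a % 3 = 0 → ∃ A C, c = A ++ (List.replicate (n + 1) a ++ C) ∧ a ∉ A ∧ a ∉ C

/-- the pentagon step: output of the rows -/
def TBm (n : ℕ) (β : FIC) : Prop := ∀ m, 1 ≤ m → (∀ m' < m, LfBm n m' β) →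
  ∀ (R c : List ℕ), Cn n m c → R.Perm (List.range (m + 1)) → 2 ≤ c.toFinset.card →
    (∀ a ∈ c, a % 3 = 0 → Th n β R (c.filter (fun e => decide (e ≠ a)))) → Th n β R c

variable {β : FIC}

/-! ### the canonical words with a set of marked gaps -/

/-- the canonical word with markers in the gaps of `S` -/
def cn (n : ℕ) (S : Finset ℕ) (m : ℕ) : List ℕ :=
  wd (fun i => 3 * i + 1) (fun i => if i ∈ S then P (n + 1) (3 * (i + 2)) else []) m

theorem wd_filt (f : ℕ → Bool) {z : ℕ → ℕ} {Z : ℕ → List ℕ} : ∀ {m : ℕ},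
    (∀ i < m, f (z i) = true) → (wd z Z m).filter f = wd z (fun i => (Z i).filter f) m
  | 0, _ => rfl
  | m + 1, h => by
    change (wd z Z m ++ z m :: Z (m + 1)).filter f =
      wd z (fun i => (Z i).filter f) m ++ z m :: (Z (m + 1)).filter f
    rw [List.filter_append, wd_filt f (fun i hi => h i (by omega)), List.filter_cons,
      if_pos (h m (by omega))]

theorem mem_wd {z : ℕ → ℕ} {Z : ℕ → List ℕ} {a : ℕ} : ∀ {m : ℕ}, a ∈ wd z Z m →
    (∃ i < m, a = z i) ∨ ∃ i ≤ m, a ∈ Z i
  | 0, h => Or.inr ⟨0, le_rfl, h⟩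
  | m + 1, h => by
    change a ∈ wd z Z m ++ z m :: Z (m + 1) at h
    rw [List.mem_append, List.mem_cons] at h
    rcases h with h | h | h
    · rcases mem_wd h with ⟨i, hi, e⟩ | ⟨i, hi, e⟩
      · exact Or.inl ⟨i, by omega, e⟩
      · exact Or.inr ⟨i, by omega, e⟩
    · exact Or.inl ⟨m, by omega, h⟩
    · exact Or.inr ⟨m + 1, le_rfl, h⟩

theorem mem_rs {z : ℕ → ℕ} {Z : ℕ → List ℕ} {g a : ℕ} : ∀ {k : ℕ}, a ∈ rs z Z g k →
    (∃ i, g ≤ i ∧ i < g + k ∧ a = z i) ∨ ∃ i, g < i ∧ i ≤ g + k ∧ a ∈ Z i
  | 0, h => by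
    change a ∈ ([] : List ℕ) at h
    simp at h
  | k + 1, h => by
    change a ∈ rs z Z g k ++ z (g + k) :: Z (g + k + 1) at h
    rw [List.mem_append, List.mem_cons] at h
    rcases h with h | h | h
    · rcases mem_rs h with ⟨i, h1, h2, e⟩ | ⟨i, h1, h2, e⟩
      · exact Or.inl ⟨i, h1, by omega, e⟩
      · exact Or.inr ⟨i, h1, by omega, e⟩
    · exact Or.inl ⟨g + k, by omega, by omega, h⟩
    · exact Or.inr ⟨g + k + 1, by omega, by omega, h⟩

theorem wd_last (z : ℕ → ℕ) (Z : ℕ → List ℕ) (i : ℕ) :
    wd z Z i = wd z (fun j => if j = i then [] else Z j) i ++ Z i := by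
  cases i with
  | zero =>
    change Z 0 = (if 0 = 0 then [] else Z 0) ++ Z 0
    rw [if_pos rfl, List.nil_append]
  | succ i =>
    change wd z Z i ++ z i :: Z (i + 1) =
      (wd z (fun j => if j = i + 1 then [] else Z j) i ++
        z i :: (if i + 1 = i + 1 then [] else Z (i + 1))) ++ Z (i + 1)
    rw [if_pos rfl]
    have e : wd z (fun j => if j = i + 1 then [] else Z j) i = wd z Z i :=
      wd_ext (fun _ _ => rfl) (fun j hj => if_neg (by omega))
    rw [e]
    simp only [List.append_assoc, List.cons_append, List.nil_append]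

theorem cn_mem {n m : ℕ} {S : Finset ℕ} {a : ℕ} (h : a ∈ cn n S m) :
    (∃ d < m, a = 3 * d + 1) ∨ ∃ i ≤ m, i ∈ S ∧ a = 3 * (i + 2) := by
  rcases mem_wd h with ⟨i, hi, e⟩ | ⟨i, hi, e⟩
  · exact Or.inl ⟨i, hi, e⟩
  · right
    by_cases hs : i ∈ S
    · rw [if_pos hs] at e
      exact ⟨i, hi, hs, List.eq_of_mem_replicate e⟩
    · rw [if_neg hs] at e
      simp at e

theorem cn_filter (n : ℕ) (S : Finset ℕ) (m i : ℕ) :
    (cn n S m).filter (fun e => decide (e ≠ 3 * (i + 2))) = cn n (S.erase i) m := by
  unfold cn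
  rw [wd_filt _ (fun j hj => by
    rw [decide_eq_true_eq]
    omega)]
  refine wd_ext (fun _ _ => rfl) (fun j hj => ?_)
  by_cases hs : j ∈ S
  · rw [if_pos hs]
    by_cases hji : j = i
    · rw [if_neg (by rw [hji]; exact Finset.notMem_erase i S), List.filter_eq_nil_iff]
      intro a ha
      rw [List.eq_of_mem_replicate ha, hji]
      simp
    · rw [if_pos (Finset.mem_erase.2 ⟨hji, hs⟩), List.filter_eq_self]
      intro a ha
      rw [List.eq_of_mem_replicate ha, decide_eq_true_eq]
      omega
  · rw [if_neg hs, if_neg (fun h => hs (Finset.mem_of_mem_erase h))]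
    rfl

theorem cn_Cn (n : ℕ) (S : Finset ℕ) (m : ℕ) : Cn n m (cn n S m) := by
  refine ⟨?_, ?_, ?_⟩
  · intro d hd
    have h1 : (cn n S m).filter (fun a => decide (a % 3 = 1)) =
        (List.range m).map (fun i => 3 * i + 1) := by
      refine wd_filter _ (fun i hi => ?_) (fun i hi a ha => ?_)
      · rw [decide_eq_true_eq]; omega
      · by_cases hs : i ∈ S
        · simp only [if_pos hs] at ha
          rw [List.eq_of_mem_replicate ha, decide_eq_false_iff_not]
          omega
        · simp only [if_neg hs] at ha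
          simp at ha
    have h2 : (cn n S m).count (3 * d + 1) =
        ((cn n S m).filter (fun a => decide (a % 3 = 1))).count (3 * d + 1) :=
      (List.count_filter (by rw [decide_eq_true_eq]; omega)).symm
    rw [h2, h1]
    refine List.count_eq_one_of_mem ?_ ?_
    · refine List.Nodup.map ?_ List.nodup_range
      intro a b h
      simpa using h
    · rw [List.mem_map]
      exact ⟨d, List.mem_range.2 hd, rfl⟩
  · intro a ha
    rcases cn_mem ha with h | ⟨i, hi, hs, e⟩
    · exact Or.inl h
    · exact Or.inr (by omega)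
  · intro a ha ha3
    rcases cn_mem ha with ⟨d, hd, e⟩ | ⟨i, hi, hs, e⟩
    · omega
    · obtain ⟨k, rfl⟩ : ∃ k, m = i + k := ⟨m - i, by omega⟩
      refine ⟨wd (fun i => 3 * i + 1) (fun j => if j = i then [] else
        (if j ∈ S then P (n + 1) (3 * (j + 2)) else [])) i,
        rs (fun i => 3 * i + 1) (fun i => if i ∈ S then P (n + 1) (3 * (i + 2)) else []) i k,
        ?_, ?_, ?_⟩
      · unfold cn
        rw [wd_rs, wd_last, if_pos hs, e]
        simp only [List.append_assoc]
      · intro h
        rcases mem_wd h with ⟨j, hj, e1⟩ | ⟨j, hj, e1⟩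
        · omega
        · by_cases h1 : j = i
          · rw [if_pos h1] at e1
            simp at e1
          · rw [if_neg h1] at e1
            by_cases h2 : j ∈ S
            · rw [if_pos h2] at e1
              have := List.eq_of_mem_replicate e1
              omega
            · rw [if_neg h2] at e1
              simp at e1
      · intro h
        rcases mem_rs h with ⟨j, h1, h2, e1⟩ | ⟨j, h1, h2, e1⟩
        · omega
        · by_cases h2 : j ∈ S
          · rw [if_pos h2] at e1
            have := List.eq_of_mem_replicate e1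
            omega
          · rw [if_neg h2] at e1
            simp at e1

/-! ### the bridge to arbitrary contexts -/

/-- the isolated places with their separators -/
def pq (T : List ℕ) : List ℕ := T.flatMap (fun e => [3 * e + 1, 3 * e + 5])

theorem bw_pq (T : List ℕ) (L : List ℕ) : (T.map (fun e => e + 1)).flatMap
    (fun r => (if r = 0 then L else [3 * (r - 1) + 1]) ++ [3 * r + 2]) = pq T := by
  induction T with
  | nil => rfl
  | cons e T ih =>
    rw [List.map_cons, List.flatMap_cons, ih]
    unfold pq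
    rw [List.flatMap_cons, if_neg (by omega)]
    have h1 : 3 * (e + 1) + 2 = 3 * e + 5 := by ring
    rw [h1, Nat.add_sub_cancel]
    rfl

theorem bq_eq (T U L : List ℕ) :
    Bq (T.map (fun e => e + 1) ++ 0 :: U.map (fun e => e + 1)) L = pq T ++ (L ++ 2 :: pq U) := by
  unfold Bq MVD.Bw
  rw [List.flatMap_append, List.flatMap_cons, bw_pq, bw_pq]
  simp

theorem lfbm_of_th {n m : ℕ} (h : ∀ R : List ℕ, R.Perm (List.range (m + 1)) →
    Th n β R (cn n (Finset.range (m + 1)) m)) : LfBm n m β := by
  intro z c p q x hA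
  classical
  obtain ⟨E1, hE1⟩ : ∃ E, E = (List.range m).filter (fun e => decide (z e ∈ p)) := ⟨_, rfl⟩
  obtain ⟨E2, hE2⟩ : ∃ E, E = (List.range m).filter (fun e => !decide (z e ∈ p)) := ⟨_, rfl⟩
  have hlt1 : ∀ e ∈ E1, e < m := fun e he => by
    rw [hE1] at he
    exact List.mem_range.1 (List.mem_filter.1 he).1
  have hlt2 : ∀ e ∈ E2, e < m := fun e he => by
    rw [hE2] at he
    exact List.mem_range.1 (List.mem_filter.1 he).1
  obtain ⟨g0, T, k, hT, hpT⟩ := MVD.H97.skel z p E1 (by rw [hE1]; exact List.nodup_range.filter _)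
    (fun a ha b hb hab => hA.zin a (hlt1 a ha) b (hlt1 b hb) hab)
    (fun e he => by
      rw [hE1] at he
      simpa using (List.mem_filter.1 he).2)
  obtain ⟨g1, U, k', hU, hqU⟩ := MVD.H97.skel z q E2 (by rw [hE2]; exact List.nodup_range.filter _)
    (fun a ha b hb hab => hA.zin a (hlt2 a ha) b (hlt2 b hb) hab)
    (fun e he => by
      have he' := he
      rw [hE2] at he'
      have h1 := (List.mem_filter.1 he').2
      simp only [Bool.not_eq_true', decide_eq_false_iff_not] at h1
      exact (hA.out e (hlt2 e he)).resolve_left h1)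
  have hperm : (T ++ U).Perm (List.range m) := by
    have h1 := hT.append hU
    rw [hE1, hE2] at h1
    exact h1.trans (List.filter_append_perm _ _)
  have hnd : (T ++ U).Nodup := hperm.nodup_iff.2 List.nodup_range
  have hR : (T.map (fun e => e + 1) ++ 0 :: U.map (fun e => e + 1)).Perm (List.range (m + 1)) := by
    have h1 : (T.map (fun e => e + 1) ++ 0 :: U.map (fun e => e + 1)).Perm
        (0 :: (T.map (fun e => e + 1) ++ U.map (fun e => e + 1))) := List.perm_middle
    rw [← List.map_append] at h1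
    refine h1.trans ?_
    rw [List.range_succ_eq_map]
    exact (hperm.map _).cons 0
  -- the substitution
  obtain ⟨g, hg⟩ : ∃ g : ℕ → List ℕ, g = fun i => if i = 0 then [x] else if i = 2 then g1 else
    if i % 3 = 1 then [z (i / 3)] else if i % 3 = 0 then [c (i / 3 - 2)] else
      if (i - 5) / 3 ∈ T then k ((i - 5) / 3) else k' ((i - 5) / 3) := ⟨_, rfl⟩
  have g_0 : g 0 = [x] := by rw [hg]; rfl
  have g_2 : g 2 = g1 := by rw [hg]; rfl
  have g_z : ∀ e, g (3 * e + 1) = [z e] := by
    intro e
    rw [hg]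
    simp only
    rw [if_neg (by omega), if_neg (by omega), if_pos (by omega)]
    congr 2
    omega
  have g_c : ∀ i, g (3 * (i + 2)) = [c i] := by
    intro i
    rw [hg]
    simp only
    rw [if_neg (by omega), if_neg (by omega), if_neg (by omega), if_pos (by omega)]
    congr 2
    omega
  have g_T : ∀ e ∈ T, g (3 * e + 5) = k e := by
    intro e he
    rw [hg]
    simp only
    have e1 : (3 * e + 5 - 5) / 3 = e := by omega
    rw [if_neg (by omega), if_neg (by omega), if_neg (by omega), if_neg (by omega), e1,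
      if_pos he]
  have g_U : ∀ e ∈ U, g (3 * e + 5) = k' e := by
    intro e he
    rw [hg]
    simp only
    have e1 : (3 * e + 5 - 5) / 3 = e := by omega
    have e2 : e ∉ T := fun h1 => (List.disjoint_of_nodup_append hnd) h1 he
    rw [if_neg (by omega), if_neg (by omega), if_neg (by omega), if_neg (by omega), e1,
      if_neg e2]
  have hflat : ∀ (V : List ℕ) (k : ℕ → List ℕ), (∀ e ∈ V, g (3 * e + 5) = k e) →
      (pq V).flatMap g = V.flatMap (fun e => z e :: k e) := by
    intro V k
    induction V with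
    | nil => intro _; rfl
    | cons e V ih =>
      intro hV
      have e1 : pq (e :: V) = [3 * e + 1, 3 * e + 5] ++ pq V := rfl
      rw [e1, List.flatMap_append, ih (fun a ha => hV a (List.mem_cons_of_mem _ ha)),
        List.flatMap_cons, List.flatMap_cons, List.flatMap_nil, g_z,
        hV e List.mem_cons_self, List.flatMap_cons, List.append_nil]
      rfl
  have hW : (cn n (Finset.range (m + 1)) m).flatMap g = wd z (fun i => P (n + 1) (c i)) m := by
    unfold cn
    have e1 : ∀ {j : ℕ}, j ≤ m → (wd (fun i => 3 * i + 1)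
        (fun i => if i ∈ Finset.range (m + 1) then P (n + 1) (3 * (i + 2)) else []) j).flatMap g =
        wd z (fun i => P (n + 1) (c i)) j := by
      intro j
      induction j with
      | zero =>
        intro _
        change (if 0 ∈ Finset.range (m + 1) then P (n + 1) (3 * (0 + 2)) else []).flatMap g =
          P (n + 1) (c 0)
        rw [if_pos (by simp), flat_P, g_c]
        have := pwd_P (n + 1) 1 (c 0)
        rw [Nat.mul_one] at this
        exact this
      | succ j ih =>
        intro hj
        change (wd _ _ j ++ (3 * j + 1) :: (if j + 1 ∈ Finset.range (m + 1) then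
          P (n + 1) (3 * (j + 1 + 2)) else [])).flatMap g =
          wd z (fun i => P (n + 1) (c i)) j ++ z j :: P (n + 1) (c (j + 1))
        rw [List.flatMap_append, ih (by omega), List.flatMap_cons, g_z,
          if_pos (Finset.mem_range.2 (by omega)), flat_P, g_c]
        have := pwd_P (n + 1) 1 (c (j + 1))
        rw [Nat.mul_one] at this
        have h2 : pwd (n + 1) [c (j + 1)] = P (n + 1) (c (j + 1)) := this
        rw [h2]
        rfl
    exact e1 le_rfl
  have h9 := ((h _ hR).sub g)
  rw [bq_eq, bq_eq] at h9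
  have key : ∀ j : ℕ, g0 ++ ((pq T ++ ((P j 0 ++ (cn n (Finset.range (m + 1)) m ++ P j 0)) ++
      2 :: pq U)).flatMap g ++ []) = p ++ (P j x ++ (wd z (fun i => P (n + 1) (c i)) m ++
        (P j x ++ q))) := by
    intro j
    have hj : (P j 0).flatMap g = P j x := by
      rw [flat_P, g_0]
      have := pwd_P j 1 x
      rw [Nat.mul_one] at this
      exact this
    rw [List.flatMap_append, List.flatMap_append, List.flatMap_append, List.flatMap_append,
      List.flatMap_cons, hflat T k g_T, hflat U k' g_U, hW, hj, g_2]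
    conv_rhs => rw [hpT, hqU]
    simp only [List.append_assoc, List.append_nil]
  have h10 := cx g0 [] h9
  have k1 := key 1
  have k2 := key (n + 1)
  have f1 : (0 :: (cn n (Finset.range (m + 1)) m ++ [0])) =
      P 1 0 ++ (cn n (Finset.range (m + 1)) m ++ P 1 0) := rfl
  rw [f1, k1, k2] at h10
  exact h10

/-! ### the base cases -/

/-- two letters in one block, in no state -/
theorem hstm {n : ℕ} (hH : HBP n β) (u v : List ℕ) (hu : ∀ c ∈ u, c = 0 ∨ c = 1)
    (hv : ∀ c ∈ v, c = 0 ∨ c = 1) (u0 : 2 ≤ u.count 0) (u1 : 2 ≤ u.count 1)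
    (v0 : 2 ≤ v.count 0) (v1 : 2 ≤ v.count 1) (m0 : u.count 0 ≡ v.count 0 [MOD n])
    (m1 : u.count 1 ≡ v.count 1 [MOD n]) (su : [0, 1].Sublist u ∧ [1, 0].Sublist u)
    (sv : [0, 1].Sublist v ∧ [1, 0].Sublist v) : RR β u v := by
  have ok : ∀ u : List ℕ, (∀ c ∈ u, c = 0 ∨ c = 1) → 2 ≤ u.count 0 → 2 ≤ u.count 1 →
      OkB 0 (fun _ => u) := by
    intro u hu u0 u1
    constructor
    · intro j hj c hc
      unfold NS
      rcases hu c hc with rfl | rfl <;> omega
    · intro j hj c hc
      unfold deg
      simp only [zero_add, Finset.sum_range_one]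
      rcases hu c hc with rfl | rfl
      · exact u0
      · exact u1
  refine hH.hst 0 (fun _ => u) (fun _ => v) (ok u hu u0 u1) (ok v hv v0 v1)
    (fun _ _ c hc => hu c hc) (fun _ _ c hc => hv c hc) (fun _ _ => Or.inr ⟨u0, v0, m0⟩)
    (fun _ _ => Or.inr ⟨u1, v1, m1⟩) ?_
  intro i _ _
  unfold Fst
  constructor
  · simp only [Bool.false_eq_true, if_false]
    exact ⟨fun h => absurd su.2 h, fun h => absurd sv.2 h⟩
  · simp only [if_true]
    exact ⟨fun h => absurd su.1 h, fun h => absurd sv.1 h⟩

/-- a sublist of two letters of `P j a ++ (w ++ P j a)` -/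
theorem sub2 {a b j : ℕ} (hj : 1 ≤ j) {w : List ℕ} (hb : b ∈ w) :
    [a, b].Sublist (P j a ++ (w ++ P j a)) ∧ [b, a].Sublist (P j a ++ (w ++ P j a)) := by
  have h1 : [a].Sublist (P j a) := by
    rw [List.singleton_sublist, List.mem_replicate]
    exact ⟨by omega, rfl⟩
  have h2 : [b].Sublist w := List.singleton_sublist.2 hb
  constructor
  · have h := h1.append (h2.trans (List.sublist_append_left w (P j a)))
    exact h
  · have h := (h2.append h1).trans (List.sublist_append_right (P j a) _)
    exact h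

theorem lf0 {n : ℕ} (hB : HBP n β) : LfBm n 0 β := by
  intro z c p q x _
  have h : RR β (P 1 0 ++ (P (n + 1) 1 ++ P 1 0)) (P (n + 1) 0 ++ (P (n + 1) 1 ++ P (n + 1) 0)) := by
    have hn := hB.pos
    refine hstm hB _ _ ?_ ?_ ?_ ?_ ?_ ?_ ?_ ?_ (sub2 le_rfl ?_) (sub2 (by omega) ?_)
    · intro c hc
      simp only [List.mem_append, List.mem_replicate] at hc
      omega
    · intro c hc
      simp only [List.mem_append, List.mem_replicate] at hc
      omega
    · simp only [List.count_append, count_P]
      norm_num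
    · simp only [List.count_append, count_P]
      norm_num
      omega
    · simp only [List.count_append, count_P]
      norm_num
      omega
    · simp only [List.count_append, count_P]
      norm_num
      omega
    · simp only [List.count_append, count_P]
      norm_num
      have e : n + 1 + (n + 1) = n * 2 + 2 := by ring
      rw [e]
      exact (Nat.mul_add_mod n 2 2).symm
    · simp only [List.count_append, count_P]
      norm_num
    · rw [List.mem_replicate]
      exact ⟨by omega, rfl⟩
    · rw [List.mem_replicate]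
      exact ⟨by omega, rfl⟩
  have h1 := cx p q (h.sub (fun i => if i = 0 then [x] else [c 0]))
  rw [List.flatMap_append, List.flatMap_append, List.flatMap_append, List.flatMap_append, flat_P,
    flat_P, flat_P] at h1
  have e0 : (if (0 : ℕ) = 0 then [x] else [c 0]) = P 1 x := rfl
  have e1 : (if (1 : ℕ) = 0 then [x] else [c 0]) = P 1 (c 0) := rfl
  rw [e0, e1, pwd_P, pwd_P, pwd_P, Nat.mul_one, Nat.mul_one] at h1
  simp only [List.append_assoc] at h1
  exact h1

/-! ### words with less lights -/

/-- markers replaced by words, thin runs with `m` lights -/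
theorem lfwm {n m : ℕ} (ap : RR β [0, 0] (List.replicate (n + 2) 0)) (hn : 1 ≤ n) (hC : CM n β)
    (hB : LfBm n m β) (z : ℕ → ℕ) (Z : ℕ → List ℕ) (p q : List ℕ) (x : ℕ)
    (out : ∀ i < m, z i ∈ p ∨ z i ∈ q) (zin : ∀ i < m, ∀ j < m, z i = z j → i = j)
    (zx : ∀ i < m, z i ≠ x) (xp : x ∉ p) (xq : x ∉ q) :
    RR β (p ++ (P 1 x ++ (wd z (fun i => hp n (Z i)) m ++ (P 1 x ++ q))))
      (p ++ (P (n + 1) x ++ (wd z (fun i => hp n (Z i)) m ++ (P (n + 1) x ++ q)))) := by
  obtain ⟨N, hN⟩ := bound (x :: (p ++ (q ++ wd z (fun _ => []) m)))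
  have Nx : x < N := hN x (by simp)
  have Np : ∀ a ∈ p, a < N := fun a ha => hN a (by simp [ha])
  have Nq : ∀ a ∈ q, a < N := fun a ha => hN a (by simp [ha])
  have Nz : ∀ i < m, z i < N := fun i hi => hN _ (by
    have := mem_wd_z (z := z) (Z := fun _ => []) hi
    simp [this])
  have h := hB z (fun i => N + i) p q x
    { out := out
      zin := zin
      zx := zx
      xp := xp
      xq := xq
      cin := fun i _ j _ h => by omega
      cx := fun i _ => by omega
      cz := fun i _ j hj => by have := Nz j hj; omega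
      cp := fun i _ h => by have := Np _ h; omega
      cq := fun i _ h => by have := Nq _ h; omega }
  have h1 := h.sub (gm n N Z)
  have eP : ∀ k, (P k x).flatMap (gm n N Z) = P k x := fun k => gm_id n N Z _ (by
    intro a ha
    rw [List.eq_of_mem_replicate ha]
    exact Nx)
  have eW : (wd z (fun i => P (n + 1) (N + i)) m).flatMap (gm n N Z) =
      wd z (fun i => pwd (n + 1) (hp n (Z i))) m := by
    rw [wd_flat]
    · refine wd_ext (fun _ _ => rfl) (fun i _ => gm_P n N Z (n + 1) i)
    · intro i hi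
      unfold gm
      rw [if_neg (by have := Nz i hi; omega)]
  simp only [List.flatMap_append] at h1
  rw [gm_id n N Z p Np, gm_id n N Z q Nq, eP, eP, eW] at h1
  have h2 : RR β (wd z (fun i => pwd (n + 1) (hp n (Z i))) m) (wd z (fun i => hp n (Z i)) m) :=
    wd_congr (fun i _ => pwd_hp ap hn hC (Z i))
  have h3 := cx (p ++ P 1 x) (P 1 x ++ q) h2
  have h4 := cx (p ++ P (n + 1) x) (P (n + 1) x ++ q) h2
  simp only [List.append_assoc] at h3 h4
  exact tr h3.symm (tr h1 h4)

/-- **Words with less lights**: `p x U x q` with heavy letters `H` (to the power `n+1`) and less than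
`m` other letters in `U` is thick. -/
theorem lt1 {n m : ℕ} (ap : RR β [0, 0] (List.replicate (n + 2) 0)) (hn : 1 ≤ n) (hC : CM n β)
    (hB : ∀ m' < m, LfBm n m' β) (H : ℕ → Bool) (p U q : List ℕ) (x : ℕ) (hx : x ∉ U)
    (hnd : (U.filter (fun c => !H c)).Nodup) (hlen : (U.filter (fun c => !H c)).length < m)
    (hout : ∀ c ∈ U, H c = false → c ∈ p ∨ c ∈ q) :
    RR β (p ++ (P 1 x ++ (DH n H U ++ (P 1 x ++ q))))
      (p ++ (P (n + 1) x ++ (DH n H U ++ (P (n + 1) x ++ q)))) := by
  obtain ⟨s, hs⟩ := fresh (x :: (p ++ (U ++ q)))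
  simp only [List.mem_cons, List.mem_append, not_or] at hs
  obtain ⟨sx, sp, sU, sq⟩ := hs
  obtain ⟨g, z, Z, e, z1, z2⟩ := deco (fun c => !H c) U
  have y1 : ∀ i < g, H (z i) = false := fun i hi => by simpa using z1 i hi
  have y2 : ∀ i ≤ g, ∀ c ∈ Z i, H c = true := fun i hi c hc => by simpa using z2 i hi c hc
  have zU : ∀ i < g, z i ∈ U := fun i hi => by rw [e]; exact mem_wd_z hi
  have zx : ∀ i < g, z i ≠ x := fun i hi h => hx (h ▸ zU i hi)
  have ef : U.filter (fun c => !H c) = (List.range g).map z := by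
    rw [e]
    exact wd_filter _ z1 z2
  have hg : g < m := by
    rw [ef, List.length_map, List.length_range] at hlen
    exact hlen
  have zin : ∀ i < g, ∀ j < g, z i = z j → i = j := by
    rw [ef] at hnd
    intro i hi j hj h
    exact List.inj_on_of_nodup_map hnd (List.mem_range.2 hi) (List.mem_range.2 hj) h
  have h := lfwm ap hn hC (hB g hg) z Z (rn x s p) (rn x s q) x
    (fun i hi => by
      rcases hout _ (zU i hi) (y1 i hi) with h | h
      · exact Or.inl (rn_mem (zx i hi) h)
      · exact Or.inr (rn_mem (zx i hi) h)) zin zx (rn_nm x s sx p) (rn_nm x s sx q)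
  rw [← DH_wd n H y1 y2, ← e] at h
  have h1 := h.sub (bk x s)
  simp only [List.flatMap_append] at h1
  have eU : (DH n H U).flatMap (bk x s) = DH n H U := by
    refine bk_id x s _ ?_
    intro hm
    unfold DH at hm
    rw [List.mem_flatMap] at hm
    obtain ⟨a, ha, h'⟩ := hm
    by_cases hH : H a = true
    · rw [if_pos hH] at h'
      exact sU ((List.eq_of_mem_replicate h') ▸ ha)
    · rw [if_neg hH, List.mem_singleton] at h'
      exact sU (h' ▸ ha)
  rw [bk_rn x s p sp, bk_rn x s q sq, bk_P x s 1 sx, bk_P x s (n + 1) sx, eU] at h1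
  exact h1

end Pool.Agent.Helper96_MWV
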