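import Pool.Agent.Helper96_MWV.Runs2
import Pool.Agent.Helper61_MWD.Disp

/-!
# `It2` from the two run facts (MP_23468a_al)
-/

set_option autoImplicit false

namespace Pool.Agent.Helper96_MWV

open Pool.Agent.Helper14_MV Pool.Agent.Helper2_MV Pool.Agent.Helper61_MWD

/-- thin runs in the world `x²y² ≈ y²x²`, `xtxsx ≈ x^(n+1)tx^(n+1)sx^(n+1)` -/
def LfS (n : ℕ) : Prop := ∀ β : FIC, LRW n β → MWNP.HBP n β →
  MWZ.R0 (RR β) ∧ MWZ.L n (RR β) → LfB n β

/-- heavy runs in the same world -/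
def RfS (n : ℕ) : Prop := ∀ β : FIC, LRW n β → MWNP.HBP n β →
  MWZ.R0 (RR β) ∧ MWZ.L n (RR β) → RfB n β

/-- **`It2` from the run facts.** -/
theorem it2 {n : ℕ} (hL : LfS n) (hR : RfS n) : It2 n :=
  fun β hw hb hs => i12r hb hs.1 (hL β hw hb hs) (hR β hw hb hs)

end Pool.Agent.Helper96_MWV
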