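import Pool.Agent.Helper96_MWV.Final
import Pool.Agent.Helper96_MWV.It2
import Pool.Agent.Helper61_MWT.Wo
import Pool.Agent.MWV.Stmts

/-!
# `It2` from the last row of MWT and the fill statement of MWV (MP_23468a_al)
-/

set_option autoImplicit false

namespace Pool.Agent.Helper96_MWV

open Pool.Agent.Helper14_MV Pool.Agent.Helper2_MV Pool.Agent.Helper61_MWD

theorem dh_eq (n : ℕ) (H : ℕ → Bool) (w : List ℕ) : MWV.dh n H w = DH n H w := rfl

/-- the fill statement in the world over `R0` -/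
theorem fil_of_stmt (h : MWV.FilStmt) {n : ℕ} {β : FIC} (hw : LRW n β) (hb : MWNP.HBP n β)
    (h0 : MWZ.R0 (RR β)) : Fil n β := by
  intro H p q a b x hx hnd hout
  exact h β n hw.pos hw.md hw.iso hb.ap (cm_of hb h0 0 3) H p q a b x hx hnd hout

/-- **`It2 n` from the two squads.** -/
theorem it2f {n : ℕ} (hRow : RowT) (hF : MWV.FilStmt) : It2 n :=
  fun _ hw hb hs => i12f hRow (Helper61_MWT.wo_of hw hb hs.1 hs.2) hb hs.1
    (fil_of_stmt hF hw hb hs.1)

end Pool.Agent.Helper96_MWV
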