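import Pool.Agent.Helper96_MWV.Pnt
import Pool.Agent.Helper96_MWV.Out

/-!
# `It2` from the last rows of the squads MWT and MWV (MP_23468a_al)
-/

set_option autoImplicit false

namespace Pool.Agent.Helper96_MWV

/-- **`It2 n` from `PntStmt` and `FilStmt`.** -/
theorem it2p {n : ℕ} (hP : MWT.PntStmt) (hF : MWV.FilStmt) : Helper61_MWD.It2 n :=
  it2f (rowT_of hP) hF

end Pool.Agent.Helper96_MWV
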