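import Pool.Agent.Helper96_MWV.Runs2

/-!
# Heavy runs from the fill statement with heavy letters marked by a set `H` (MP_23468a_al)
-/

set_option autoImplicit false

namespace Pool.Agent.Helper96_MWV

open Pool.Agent.Helper14_MV Pool.Agent.Helper2_MV Pool.Agent.MVO Pool.Agent.MVO.Sys
  Pool.Agent.MWL Pool.Agent.MWS Pool.Agent.MWN Pool.Agent.MWNP

/-- the letters of `H` to the power `n+1` -/
def DH (n : ℕ) (H : ℕ → Bool) (w : List ℕ) : List ℕ :=
  w.flatMap (fun a => if H a = true then P (n + 1) a else [a])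

/-- fill for heavy letters -/
def Fil (n : ℕ) (β : FIC) : Prop := ∀ (H : ℕ → Bool) (p q a b : List ℕ) (h : ℕ), H h = true →
  ((a ++ b).filter (fun c => !H c)).Nodup →
  (∀ c ∈ a ++ b, H c = false → c ∈ p ∨ c ∈ q) →
    RR β (DH n H (p ++ h :: (a ++ (b ++ h :: q))))
      (DH n H (p ++ h :: (a ++ (P n h ++ (b ++ h :: q)))))

variable {β : FIC}

theorem DH_app (n : ℕ) (H : ℕ → Bool) (u v : List ℕ) : DH n H (u ++ v) = DH n H u ++ DH n H v :=
  List.flatMap_append

theorem DH_id (n : ℕ) (H : ℕ → Bool) (w : List ℕ) (h : ∀ a ∈ w, H a = false) :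
    DH n H w = w := by
  induction w with
  | nil => rfl
  | cons b w ih =>
    change (if H b = true then P (n + 1) b else [b]) ++ DH n H w = b :: w
    rw [ih (fun a ha => h a (List.mem_cons_of_mem _ ha)),
      if_neg (by rw [h b List.mem_cons_self]; simp)]
    rfl

theorem DH_P (n : ℕ) (H : ℕ → Bool) (k a : ℕ) (h : H a = true) :
    DH n H (P k a) = P (k * (n + 1)) a := by
  unfold DH
  rw [flat_P, if_pos h, pwd_P]

/-- the rest of a word `wd` -/
def rs (z : ℕ → ℕ) (Z : ℕ → List ℕ) (g : ℕ) : ℕ → List ℕ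
  | 0 => []
  | k + 1 => rs z Z g k ++ z (g + k) :: Z (g + k + 1)

theorem wd_rs (z : ℕ → ℕ) (Z : ℕ → List ℕ) (g : ℕ) : ∀ k : ℕ,
    wd z Z (g + k) = wd z Z g ++ rs z Z g k
  | 0 => by rw [Nat.add_zero]; change _ = _ ++ []; rw [List.append_nil]
  | k + 1 => by
    change wd z Z (g + k) ++ z (g + k) :: Z (g + k + 1) =
      wd z Z g ++ (rs z Z g k ++ z (g + k) :: Z (g + k + 1))
    rw [wd_rs z Z g k, List.append_assoc]

theorem rs_ext {z : ℕ → ℕ} {Z Z' : ℕ → List ℕ} {g : ℕ} : ∀ {k : ℕ},
    (∀ i, g < i → i ≤ g + k → Z i = Z' i) → rs z Z g k = rs z Z' g k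
  | 0, _ => rfl
  | k + 1, h => by
    change rs z Z g k ++ z (g + k) :: Z (g + k + 1) = rs z Z' g k ++ z (g + k) :: Z' (g + k + 1)
    rw [rs_ext (fun i h1 h2 => h i h1 (by omega)), h (g + k + 1) (by omega) (by omega)]

/-- marker and fill -/
def fj (n x : ℕ) (c : ℕ → ℕ) (j i : ℕ) : List ℕ := c i :: (if i ≤ j then P n x else [])

theorem rfb_of {n : ℕ} (ap : RR β [0, 0] (List.replicate (n + 2) 0)) (hn : 1 ≤ n)
    (hF : Fil n β) : RfB n β := by
  intro m z c p q x hA
  -- the heavy letters
  obtain ⟨H, hH⟩ : ∃ H : ℕ → Bool, ∀ a, H a = true ↔ (a = x ∨ ∃ i ≤ m, a = c i) := by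
    classical
    exact ⟨fun a => decide (a = x ∨ ∃ i ≤ m, a = c i), fun a => by simp⟩
  have Hx : H x = true := (hH x).2 (Or.inl rfl)
  have Hc : ∀ i ≤ m, H (c i) = true := fun i hi => (hH _).2 (Or.inr ⟨i, hi, rfl⟩)
  have Hf : ∀ a, a ≠ x → (∀ i ≤ m, a ≠ c i) → H a = false := by
    intro a h1 h2
    by_contra h
    have h' : H a = true := by simpa using h
    rcases (hH a).1 h' with h | ⟨i, hi, h⟩
    · exact h1 h
    · exact h2 i hi h
  have Hz : ∀ i < m, H (z i) = false := fun i hi =>
    Hf _ (hA.zx i hi) (fun j hj h => hA.cz j hj i hi h.symm)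
  have Hp : ∀ a ∈ p, H a = false := fun a ha =>
    Hf a (fun h => hA.xp (h ▸ ha)) (fun i hi h => hA.cp i hi (h ▸ ha))
  have Hq : ∀ a ∈ q, H a = false := fun a ha =>
    Hf a (fun h => hA.xq (h ▸ ha)) (fun i hi h => hA.cq i hi (h ▸ ha))
  -- the non heavy letters of a run
  have filt : ∀ (Z : ℕ → List ℕ), (∀ i ≤ m, ∀ a ∈ Z i, H a = true) →
      ((wd z Z m).filter (fun c => !H c)) = (List.range m).map z := by
    intro Z hZ
    refine wd_filter (fun c => !H c) (fun i hi => by rw [Hz i hi]; rfl)
      (fun i hi a ha => by rw [hZ i hi a ha]; rfl)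
  have nod : ((List.range m).map z).Nodup := by
    refine List.Nodup.map_on ?_ List.nodup_range
    intro i hi j hj h
    exact hA.zin i (List.mem_range.1 hi) j (List.mem_range.1 hj) h
  -- one step
  have Zh : ∀ j, ∀ i ≤ m, ∀ a ∈ ig m (fj n x c j) i, H a = true := by
    intro j i hi a ha
    unfold ig at ha
    by_cases h0 : i = 0 ∨ i = m
    · rw [if_pos h0] at ha
      simp at ha
    · rw [if_neg h0] at ha
      unfold fj at ha
      rw [List.mem_cons] at ha
      rcases ha with ha | ha
      · rw [ha]; exact Hc i hi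
      · by_cases hij : i ≤ j
        · rw [if_pos hij] at ha
          rw [List.eq_of_mem_replicate ha]
          exact Hx
        · rw [if_neg hij] at ha
          simp at ha
  have step : ∀ j, RR β (DH n H ((p ++ P (n - 1) x) ++ x :: (wd z (ig m (fj n x c j)) m ++
        x :: (P (n - 1) x ++ q))))
      (DH n H ((p ++ P (n - 1) x) ++ x :: (wd z (ig m (fj n x c (j + 1))) m ++
        x :: (P (n - 1) x ++ q)))) := by
    intro j
    by_cases hj : j + 1 < m
    · obtain ⟨k, rfl⟩ : ∃ k, m = j + 1 + k := ⟨m - (j + 1), by omega⟩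
      have e1 : wd z (ig (j + 1 + k) (fj n x c j)) (j + 1 + k) =
          wd z (ig (j + 1 + k) (fj n x c j)) (j + 1) ++
            rs z (ig (j + 1 + k) (fj n x c j)) (j + 1) k := wd_rs _ _ _ _
      have e2 : wd z (ig (j + 1 + k) (fj n x c (j + 1))) (j + 1 + k) =
          wd z (ig (j + 1 + k) (fj n x c j)) (j + 1) ++ (P n x ++
            rs z (ig (j + 1 + k) (fj n x c j)) (j + 1) k) := by
        rw [wd_rs]
        have e3 : rs z (ig (j + 1 + k) (fj n x c (j + 1))) (j + 1) k =
            rs z (ig (j + 1 + k) (fj n x c j)) (j + 1) k := by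
          refine rs_ext (fun i h1 h2 => ?_)
          unfold ig fj
          rw [if_neg (show ¬ i ≤ j + 1 by omega), if_neg (show ¬ i ≤ j by omega)]
        have e4 : wd z (ig (j + 1 + k) (fj n x c (j + 1))) (j + 1) =
            wd z (ig (j + 1 + k) (fj n x c j)) (j + 1) ++ P n x := by
          change wd z (ig (j + 1 + k) (fj n x c (j + 1))) j ++
            z j :: ig (j + 1 + k) (fj n x c (j + 1)) (j + 1) =
            (wd z (ig (j + 1 + k) (fj n x c j)) j ++
              z j :: ig (j + 1 + k) (fj n x c j) (j + 1)) ++ P n x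
          have e5 : wd z (ig (j + 1 + k) (fj n x c (j + 1))) j =
              wd z (ig (j + 1 + k) (fj n x c j)) j := by
            refine wd_ext (fun _ _ => rfl) (fun i hi => ?_)
            unfold ig fj
            rw [if_pos (show i ≤ j + 1 by omega), if_pos (show i ≤ j by omega)]
          have e6 : ig (j + 1 + k) (fj n x c (j + 1)) (j + 1) =
              ig (j + 1 + k) (fj n x c j) (j + 1) ++ P n x := by
            unfold ig fj
            have hc0 : ¬ (j + 1 = 0 ∨ j + 1 = j + 1 + k) := by omega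
            rw [if_neg hc0, if_neg hc0, if_pos (le_refl (j + 1)),
              if_neg (show ¬ j + 1 ≤ j by omega)]
            rfl
          rw [e5, e6]
          simp only [List.append_assoc, List.cons_append]
        rw [e3, e4, List.append_assoc]
      have h := hF H (p ++ P (n - 1) x) (P (n - 1) x ++ q) (wd z (ig (j + 1 + k) (fj n x c j)) (j + 1))
        (rs z (ig (j + 1 + k) (fj n x c j)) (j + 1) k) x Hx (by
          rw [← e1, filt _ (Zh j)]
          exact nod) (by
          rw [← e1]
          intro a ha hHa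
          have : a ∈ (wd z (ig (j + 1 + k) (fj n x c j)) (j + 1 + k)).filter (fun c => !H c) := by
            rw [List.mem_filter]
            exact ⟨ha, by rw [hHa]; rfl⟩
          rw [filt _ (Zh j), List.mem_map] at this
          obtain ⟨i, hi, rfl⟩ := this
          rcases hA.out i (List.mem_range.1 hi) with h | h
          · exact Or.inl (List.mem_append_left _ h)
          · exact Or.inr (List.mem_append_right _ h))
      rw [e1, e2]
      simp only [List.append_assoc] at h ⊢
      exact h
    · have e : wd z (ig m (fj n x c (j + 1))) m = wd z (ig m (fj n x c j)) m := by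
        refine wd_ext (fun _ _ => rfl) (fun i hi => ?_)
        unfold ig
        by_cases h0 : i = 0 ∨ i = m
        · rw [if_pos h0, if_pos h0]
        · rw [if_neg h0, if_neg h0]
          unfold fj
          rw [if_pos (show i ≤ j + 1 by omega), if_pos (show i ≤ j by omega)]
      rw [e]
      exact RR.refl _
  have all : ∀ j, RR β (DH n H ((p ++ P (n - 1) x) ++ x :: (wd z (ig m (fj n x c 0)) m ++
        x :: (P (n - 1) x ++ q))))
      (DH n H ((p ++ P (n - 1) x) ++ x :: (wd z (ig m (fj n x c j)) m ++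
        x :: (P (n - 1) x ++ q)))) := by
    intro j
    induction j with
    | zero => exact RR.refl _
    | succ j ih => exact tr ih (step j)
  have key := all m
  -- the words
  have wz : ∀ (Z : ℕ → List ℕ), DH n H (wd z Z m) = wd z (fun i => DH n H (Z i)) m := by
    intro Z
    exact wd_flat _ (fun i hi => by rw [Hz i hi]; rfl)
  have ex : ∀ w : List ℕ, DH n H (x :: w) = P (n + 1) x ++ DH n H w := by
    intro w
    change (if H x = true then P (n + 1) x else [x]) ++ DH n H w = _
    rw [if_pos Hx]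
  have ep : DH n H (p ++ P (n - 1) x) = p ++ P ((n - 1) * (n + 1)) x := by
    rw [DH_app, DH_id n H p Hp, DH_P n H _ x Hx]
  have eq : DH n H (P (n - 1) x ++ q) = P ((n - 1) * (n + 1)) x ++ q := by
    rw [DH_app, DH_id n H q Hq, DH_P n H _ x Hx]
  have ew : ∀ w : List ℕ, DH n H ((p ++ P (n - 1) x) ++ x :: (w ++ x :: (P (n - 1) x ++ q))) =
      p ++ (P ((n - 1) * (n + 1)) x ++ (P (n + 1) x ++ (DH n H w ++ (P (n + 1) x ++
        (P ((n - 1) * (n + 1)) x ++ q))))) := by
    intro w
    rw [DH_app, ep, ex, DH_app, ex, eq, List.append_assoc]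
  rw [ew, ew, wz, wz] at key
  have w0 : wd z (fun i => DH n H (ig m (fj n x c 0) i)) m =
      wd z (ig m (fun i => P (n + 1) (c i))) m := by
    refine wd_ext (fun _ _ => rfl) (fun i hi => ?_)
    unfold ig
    by_cases h0 : i = 0 ∨ i = m
    · rw [if_pos h0, if_pos h0]; rfl
    · rw [if_neg h0, if_neg h0]
      unfold fj
      rw [if_neg (show ¬ i ≤ 0 by omega)]
      change (if H (c i) = true then P (n + 1) (c i) else [c i]) ++ [] = _
      rw [if_pos (Hc i hi), List.append_nil]
  have w1 : RR β (wd z (fun i => DH n H (ig m (fj n x c m) i)) m)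
      (wd z (ig m (fun i => P (n + 1) (c i) ++ P (2 * n) x)) m) := by
    refine wd_congr (fun i hi => ?_)
    unfold ig
    by_cases h0 : i = 0 ∨ i = m
    · rw [if_pos h0, if_pos h0]; exact RR.refl _
    · rw [if_neg h0, if_neg h0]
      unfold fj
      rw [if_pos hi]
      have e : DH n H (c i :: P n x) = P (n + 1) (c i) ++ P (n * (n + 1)) x := by
        change (if H (c i) = true then P (n + 1) (c i) else [c i]) ++ DH n H (P n x) = _
        rw [if_pos (Hc i hi), DH_P n H n x Hx]
      rw [e]
      refine cl _ ?_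
      have h := pwk ap x (2 * n) (n - 1) (by omega)
      have e2 : 2 * n + (n - 1) * n = n * (n + 1) := by
        obtain ⟨k, rfl⟩ : ∃ k, n = k + 1 := ⟨n - 1, by omega⟩
        rw [Nat.add_sub_cancel]
        ring
      rw [e2] at h
      exact h.symm
  rw [w0] at key
  -- the ends
  have en : RR β (P (2 * n) x) (P ((n - 1) * (n + 1) + (n + 1)) x) := by
    have h := pwk ap x (2 * n) (n - 1) (by omega)
    have e2 : 2 * n + (n - 1) * n = (n - 1) * (n + 1) + (n + 1) := by
      obtain ⟨k, rfl⟩ : ∃ k, n = k + 1 := ⟨n - 1, by omega⟩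
      rw [Nat.add_sub_cancel]
      ring
    rw [e2] at h
    exact h
  have e3 : n + 1 + (n - 1) * (n + 1) = (n - 1) * (n + 1) + (n + 1) := by omega
  simp only [mg] at key
  rw [e3] at key
  have k1 := cx p (P ((n - 1) * (n + 1) + (n + 1)) x ++ q)
    (cl (P ((n - 1) * (n + 1) + (n + 1)) x) w1)
  have l1 : ∀ w : List ℕ, RR β (p ++ (P (2 * n) x ++ (w ++ (P (2 * n) x ++ q))))
      (p ++ (P ((n - 1) * (n + 1) + (n + 1)) x ++ (w ++ (P ((n - 1) * (n + 1) + (n + 1)) x ++
        q)))) :=
    fun w => cl p (en.append (cl w (en.append (RR.refl q))))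
  simp only [List.append_assoc] at k1
  exact tr (l1 _) (tr (tr key k1) (l1 _).symm)

/-! ### the converse: the fill statement from the heavy runs -/

theorem DH_wd (n : ℕ) (H : ℕ → Bool) {z : ℕ → ℕ} {Z : ℕ → List ℕ} {m : ℕ}
    (h1 : ∀ i < m, H (z i) = false) (h2 : ∀ i ≤ m, ∀ a ∈ Z i, H a = true) :
    DH n H (wd z Z m) = wd z (fun i => hp n (Z i)) m := by
  have e := wd_hv n (fun a => !H a) (z := z) (Z := Z) (m := m)
    (fun i hi => by rw [h1 i hi]; rfl) (fun i hi a ha => by rw [h2 i hi a ha]; rfl)
  rw [← e]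
  unfold DH
  refine List.flatMap_congr (fun a _ => ?_)
  by_cases ha : H a = true
  · rw [if_pos ha, ha]; rfl
  · rw [if_neg ha]
    have : H a = false := by simpa using ha
    rw [this]; rfl

theorem DH_mem {n : ℕ} {H : ℕ → Bool} {w : List ℕ} {a : ℕ} (h : H a = false) (ha : a ∈ w) :
    a ∈ DH n H w := by
  unfold DH
  rw [List.mem_flatMap]
  exact ⟨a, ha, by rw [if_neg (by rw [h]; simp)]; exact List.mem_singleton.2 rfl⟩

theorem fil0 {n : ℕ} (ap : RR β [0, 0] (List.replicate (n + 2) 0)) (hn : 1 ≤ n) (hC : CM n β)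
    (hB : RfB n β) (H : ℕ → Bool) (p q a b : List ℕ) (h : ℕ) (hh : H h = true)
    (hnd : ((a ++ b).filter (fun c => !H c)).Nodup)
    (hout : ∀ c ∈ a ++ b, H c = false → c ∈ p ∨ c ∈ q) (ha : h ∉ a) (hb : h ∉ b) :
    RR β (DH n H (p ++ h :: (a ++ (b ++ h :: q))))
      (DH n H (p ++ h :: (a ++ (P n h ++ (b ++ h :: q))))) := by
  obtain ⟨g, z, Z, ea, z1, z2⟩ := deco (fun c => !H c) a
  obtain ⟨k, z', Z', eb, z1', z2'⟩ := deco (fun c => !H c) b
  have y1 : ∀ i < g, H (z i) = false := fun i hi => by simpa using z1 i hi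
  have y1' : ∀ i < k, H (z' i) = false := fun i hi => by simpa using z1' i hi
  have y2 : ∀ i ≤ g, ∀ c ∈ Z i, H c = true := fun i hi c hc => by simpa using z2 i hi c hc
  have y2' : ∀ i ≤ k, ∀ c ∈ Z' i, H c = true := fun i hi c hc => by simpa using z2' i hi c hc
  have za : ∀ i < g, z i ∈ a := fun i hi => by rw [ea]; exact mem_wd_z hi
  have zb : ∀ i < k, z' i ∈ b := fun i hi => by rw [eb]; exact mem_wd_z hi
  have cnt : ∀ c, H c = false → (a ++ b).count c ≤ 1 := by
    intro c hc
    have h1 := List.nodup_iff_count_le_one.1 hnd c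
    rwa [List.count_filter (by rw [hc]; rfl)] at h1
  have zin := wd_inj (fun c => !H c) z1 z2 (by
    intro c hc
    rw [← ea]
    have := cnt c (by simpa using hc)
    rw [List.count_append] at this
    omega)
  have zin' := wd_inj (fun c => !H c) z1' z2' (by
    intro c hc
    rw [← eb]
    have := cnt c (by simpa using hc)
    rw [List.count_append] at this
    omega)
  have zz : ∀ i < g, ∀ j < k, z i ≠ z' j := by
    intro i hi j hj e
    have h1 := cnt (z i) (y1 i hi)
    rw [List.count_append] at h1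
    have h2 := List.count_pos_iff.2 (za i hi)
    have h3 := List.count_pos_iff.2 (zb j hj)
    rw [← e] at h3
    omega
  have mp : ∀ c, H c = false → c ∈ p ∨ c ∈ q → c ∈ DH n H p ++ P (n + 1) h ∨
      c ∈ P (n + 1) h ++ DH n H q := by
    intro c hc hcp
    rcases hcp with h1 | h1
    · exact Or.inl (List.mem_append_left _ (DH_mem hc h1))
    · exact Or.inr (List.mem_append_right _ (DH_mem hc h1))
  have key := one ap hn hC hB g k z z' Z Z' (DH n H p ++ P (n + 1) h) (P (n + 1) h ++ DH n H q) h
    (fun i hi => mp _ (y1 i hi) (hout _ (List.mem_append_left _ (za i hi)) (y1 i hi)))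
    (fun i hi => mp _ (y1' i hi) (hout _ (List.mem_append_right _ (zb i hi)) (y1' i hi)))
    zin zin' zz
    (fun i hi e => ha (e ▸ za i hi)) (fun i hi e => hb (e ▸ zb i hi))
    (fun i hi hc => ha (by rw [ea]; exact mem_wd_Z hi hc))
    (fun i hi hc => hb (by rw [eb]; exact mem_wd_Z hi hc))
  rw [← DH_wd n H y1 y2, ← DH_wd n H y1' y2', ← ea, ← eb] at key
  have ex : ∀ w : List ℕ, DH n H (h :: w) = P (n + 1) h ++ DH n H w := by
    intro w
    change (if H h = true then P (n + 1) h else [h]) ++ DH n H w = _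
    rw [if_pos hh]
  rw [DH_app, ex, DH_app, DH_app, ex, DH_app, ex, DH_app, DH_app, DH_app, ex, DH_P n H n h hh]
  simp only [List.append_assoc, mg] at key ⊢
  -- the ends
  have e1 : RR β (P (n + 1) h) (P (n + 1 + 2 * n) h) := pwk ap h (n + 1) 2 (by omega)
  have e2 : n + 1 + 2 * n = 2 * n + (n + 1) := by omega
  have e3 : RR β (P (2 * n) h) (P (n * (n + 1)) h) := by
    have h1 := pwk ap h (2 * n) (n - 1) (by omega)
    have e2 : 2 * n + (n - 1) * n = n * (n + 1) := by
      obtain ⟨k, rfl⟩ : ∃ k, n = k + 1 := ⟨n - 1, by omega⟩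
      rw [Nat.add_sub_cancel]
      ring
    rw [e2] at h1
    exact h1
  have l1 := cl (DH n H p) (e1.append (cl (DH n H a) (cl (DH n H b)
    ((e2 ▸ e1).append (RR.refl (DH n H q))))))
  have l2 := cl (DH n H p) (e1.append (cl (DH n H a) (e3.symm.append (cl (DH n H b)
    ((e2 ▸ e1).append (RR.refl (DH n H q)))))))
  exact tr l1 (tr key l2.symm)

/-- **The fill statement from the heavy runs.** -/
theorem fil_of {n : ℕ} (ap : RR β [0, 0] (List.replicate (n + 2) 0)) (hn : 1 ≤ n) (hC : CM n β)
    (hB : RfB n β) : Fil n β := by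
  intro H p q a b h hh hnd hout
  obtain ⟨a1, a2, e1, h1, s1⟩ := spl_l h a
  obtain ⟨b1, b2, e2, h2, s2⟩ := spl_r h b q
  have e2' : b ++ h :: q = b1 ++ h :: b2 := e2
  have e1' : h :: a = a1 ++ h :: a2 := e1
  have f1 : p ++ h :: (a ++ (b ++ h :: q)) = (p ++ a1) ++ h :: (a2 ++ (b1 ++ h :: b2)) := by
    have : p ++ h :: (a ++ (b ++ h :: q)) = p ++ ((h :: a) ++ (b ++ h :: q)) := rfl
    rw [this, e1', e2']
    simp only [List.append_assoc, List.cons_append]
  have f2 : p ++ h :: (a ++ (P n h ++ (b ++ h :: q))) =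
      (p ++ a1) ++ h :: (a2 ++ (P n h ++ (b1 ++ h :: b2))) := by
    have : p ++ h :: (a ++ (P n h ++ (b ++ h :: q))) =
      p ++ ((h :: a) ++ (P n h ++ (b ++ h :: q))) := rfl
    rw [this, e1', e2']
    simp only [List.append_assoc, List.cons_append]
  rw [f1, f2]
  -- sublists
  have sa : ∀ c, a2.count c ≤ a.count c := by
    intro c
    have h3 := congrArg (List.count c) e1'
    rw [List.count_append, List.count_cons, List.count_cons] at h3
    omega
  have sb : b1.count h = 0 := List.count_eq_zero.2 h2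
  have sb' : List.Sublist b1 b := by
    have : ∀ (b b1 b2 : List ℕ), b ++ h :: q = b1 ++ h :: b2 → h ∉ b1 → List.Sublist b1 b := by
      intro b
      induction b with
      | nil =>
        intro b1 b2 e hb1
        cases b1 with
        | nil => exact List.Sublist.refl _
        | cons y b1 =>
          have : h = y := by
            have e' : h :: q = y :: (b1 ++ h :: b2) := e
            injection e'
          exact absurd (this ▸ List.mem_cons_self) hb1
      | cons x b ih =>
        intro b1 b2 e hb1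
        cases b1 with
        | nil => exact List.nil_sublist _
        | cons y b1 =>
          have e' : x :: (b ++ h :: q) = y :: (b1 ++ h :: b2) := e
          injection e' with e3 e4
          rw [e3]
          exact (ih b1 b2 e4 (fun h => hb1 (List.mem_cons_of_mem _ h))).cons_cons y
    exact this b b1 b2 e2' h2
  refine fil0 ap hn hC hB H (p ++ a1) b2 a2 b1 h hh ?_ ?_ h1 h2
  · rw [List.nodup_iff_count_le_one]
    intro c
    by_cases hc : H c = true
    · have : c ∉ (a2 ++ b1).filter (fun c => !H c) := by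
        rw [List.mem_filter, hc]
        simp
      rw [List.count_eq_zero.2 this]
      omega
    · have hc' : H c = false := by simpa using hc
      have h3 := List.nodup_iff_count_le_one.1 hnd c
      rw [List.count_filter (by rw [hc']; rfl)] at h3
      rw [List.count_filter (by rw [hc']; rfl), List.count_append]
      rw [List.count_append] at h3
      have h4 := sa c
      have h5 := sb'.count_le c
      omega
  · intro c hc hHc
    rw [List.mem_append] at hc
    have h3 : c ∈ a ++ b := by
      rw [List.mem_append]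
      rcases hc with hc | hc
      · exact Or.inl (s1 c hc)
      · exact Or.inr (s2 c hc)
    rcases hout c h3 hHc with h4 | h4
    · exact Or.inl (List.mem_append_left _ h4)
    · -- `c ∈ q`
      right
      have h5 := congrArg (List.count c) e2'
      simp only [List.count_append, List.count_cons] at h5
      have h6 := sb'.count_le c
      have h7 := List.count_pos_iff.2 h4
      exact List.count_pos_iff.1 (by omega)

end Pool.Agent.Helper96_MWV
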