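import Pool.Agent.MWNP.Defs
import Pool.Agent.MWZ.Defs

/-!
# The slots of the LR world over `x²y² ≈ y²x²`, `xtxsx ≈ x^(n+1)tx^(n+1)sx^(n+1)` (MP_23468a_al)

`LT`: a letter with exactly two occurrences and only multiple letters between them becomes heavy.
`HF`: between two heavy occurrences of a letter with only multiple letters between them further heavy
occurrences can be inserted.  From these two facts and the two letter base `HBP` the two families `I1`,
`I2` follow for all words and all periods.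
-/

set_option autoImplicit false

namespace Pool.Agent.Helper96_MWV

open Pool.Agent.Helper14_MV Pool.Agent.Helper2_MV Pool.Agent.MVO Pool.Agent.MVO.Sys
  Pool.Agent.MWL Pool.Agent.MWS Pool.Agent.MWN Pool.Agent.MWNP

/-- `x^k` -/
abbrev P (k x : ℕ) : List ℕ := List.replicate k x

/-- a letter with exactly two occurrences: `p x c x q ≈ p x^(n+1) c x^(n+1) q` if every letter of `c`
occurs at least twice in the word -/
def LT (n : ℕ) (β : FIC) : Prop := ∀ (p c q : List ℕ) (x : ℕ), x ∉ p → x ∉ c → x ∉ q →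
  Mul c (p ++ x :: (c ++ x :: q)) →
    RR β (p ++ x :: (c ++ x :: q)) (p ++ (P (n + 1) x ++ (c ++ (P (n + 1) x ++ q))))

/-- heavy letters: `p X c d X q ≈ p X c X d X q`, `X = x^(2n)`, if every letter of `c` and `d` occurs at
least twice in the word -/
def HF (n : ℕ) (β : FIC) : Prop := ∀ (p c d q : List ℕ) (x : ℕ), x ∉ p → x ∉ c → x ∉ d → x ∉ q →
  Mul (c ++ d) (p ++ (P (2 * n) x ++ (c ++ (d ++ (P (2 * n) x ++ q))))) →
    RR β (p ++ (P (2 * n) x ++ (c ++ (d ++ (P (2 * n) x ++ q)))))
      (p ++ (P (2 * n) x ++ (c ++ (P (2 * n) x ++ (d ++ (P (2 * n) x ++ q))))))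

/-- residue shift across one letter, its other occurrence to the right -/
def SR (β : FIC) : Prop := RR β [0, 0, 1, 0, 2, 1] [0, 1, 0, 0, 2, 1]

/-- residue shift across one letter, its other occurrence to the left -/
def SL (β : FIC) : Prop := RR β [1, 2, 0, 0, 1, 0] [1, 2, 0, 1, 0, 0]

variable {β : FIC}

/-! ### congruence -/

theorem tr {a b c : List ℕ} (h : RR β a b) (h' : RR β b c) : RR β a c := β.trans h h'

theorem cx (p q : List ℕ) {u v : List ℕ} (h : RR β u v) : RR β (p ++ (u ++ q)) (p ++ (v ++ q)) :=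
  (RR.refl p).append (h.append (RR.refl q))

theorem cl (p : List ℕ) {u v : List ℕ} (h : RR β u v) : RR β (p ++ u) (p ++ v) :=
  (RR.refl p).append h

theorem mg (a b x : ℕ) (w : List ℕ) : P a x ++ (P b x ++ w) = P (a + b) x ++ w := by
  rw [← List.append_assoc, ← List.replicate_add]

theorem p1 (x : ℕ) (w : List ℕ) : x :: w = P 1 x ++ w := rfl

/-! ### powers -/

theorem pw0 {n : ℕ} (h : RR β [0, 0] (List.replicate (n + 2) 0)) (x : ℕ) :
    RR β (P 2 x) (P (n + 2) x) := by
  have h1 := h.sub (fun _ => [x])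
  have e : ∀ k : ℕ, (List.replicate k 0).flatMap (fun _ => [x]) = P k x := by
    intro k
    induction k with
    | zero => rfl
    | succ k ih => rw [List.replicate_succ, List.flatMap_cons, ih]; rfl
  rw [e] at h1
  exact h1

theorem pw1 {n : ℕ} (h : RR β [0, 0] (List.replicate (n + 2) 0)) (x a : ℕ) (ha : 2 ≤ a) :
    RR β (P a x) (P (a + n) x) := by
  obtain ⟨b, rfl⟩ : ∃ b, a = 2 + b := ⟨a - 2, by omega⟩
  have h1 := (pw0 h x).append (RR.refl (P b x))
  rw [← List.replicate_add, ← List.replicate_add] at h1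
  have e : n + 2 + b = 2 + b + n := by omega
  rw [e] at h1
  exact h1

theorem pwk {n : ℕ} (h : RR β [0, 0] (List.replicate (n + 2) 0)) (x a k : ℕ) (ha : 2 ≤ a) :
    RR β (P a x) (P (a + k * n) x) := by
  induction k with
  | zero => rw [Nat.zero_mul, Nat.add_zero]; exact RR.refl _
  | succ k ih =>
    have e : a + (k + 1) * n = a + k * n + n := by rw [Nat.succ_mul]; omega
    rw [e]
    exact tr ih (pw1 h x _ (by omega))

/-- powers in context -/
theorem pc {n : ℕ} (h : RR β [0, 0] (List.replicate (n + 2) 0)) (p q : List ℕ) (x a b : ℕ)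
    (ha : 2 ≤ a) (hb : ∃ k, b = a + k * n) : RR β (p ++ (P a x ++ q)) (p ++ (P b x ++ q)) := by
  obtain ⟨k, rfl⟩ := hb
  exact cx p q (pwk h x a k ha)

/-! ### a fresh letter -/

/-- `x` becomes `m` -/
def rn (x m : ℕ) (l : List ℕ) : List ℕ := l.map (fun a => if a = x then m else a)

theorem rn_nm (x m : ℕ) (hx : m ≠ x) (l : List ℕ) : x ∉ rn x m l := by
  intro h
  unfold rn at h
  rw [List.mem_map] at h
  obtain ⟨a, -, ha⟩ := h
  split_ifs at ha with h1
  · exact hx ha
  · exact h1 ha

theorem rn_ct (x m a : ℕ) (hx : a ≠ x) (hm : a ≠ m) (l : List ℕ) :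
    (rn x m l).count a = l.count a := by
  induction l with
  | nil => rfl
  | cons b l ih =>
    have e : rn x m (b :: l) = (if b = x then m else b) :: rn x m l := rfl
    rw [e, List.count_cons, List.count_cons, ih]
    by_cases hb : b = x
    · rw [if_pos hb]
      have h1 : ¬ (m == a) = true := by
        intro h
        rw [beq_iff_eq] at h
        exact hm h.symm
      have h2 : ¬ (b == a) = true := by
        intro h
        rw [beq_iff_eq] at h
        exact hx (h.symm.trans hb)
      rw [if_neg h1, if_neg h2]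
    · rw [if_neg hb]

/-- back -/
def bk (x m : ℕ) : ℕ → List ℕ := fun a => if a = m then [x] else [a]

theorem bk_id (x m : ℕ) (l : List ℕ) (h : m ∉ l) : l.flatMap (bk x m) = l := by
  induction l with
  | nil => rfl
  | cons a l ih =>
    rw [List.mem_cons, not_or] at h
    have e : bk x m a = [a] := by
      unfold bk
      rw [if_neg (fun h' => h.1 h'.symm)]
    rw [List.flatMap_cons, ih h.2, e]
    rfl

theorem bk_rn (x m : ℕ) (l : List ℕ) (h : m ∉ l) : (rn x m l).flatMap (bk x m) = l := by
  induction l with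
  | nil => rfl
  | cons a l ih =>
    rw [List.mem_cons, not_or] at h
    have e : rn x m (a :: l) = (if a = x then m else a) :: rn x m l := rfl
    rw [e, List.flatMap_cons, ih h.2]
    by_cases ha : a = x
    · rw [if_pos ha]
      have e1 : bk x m m = [x] := by unfold bk; rw [if_pos rfl]
      rw [e1, ha]
      rfl
    · rw [if_neg ha]
      have e1 : bk x m a = [a] := by
        unfold bk
        rw [if_neg (fun h' => h.1 h'.symm)]
      rw [e1]
      rfl

theorem bk_P (x m k : ℕ) (hx : m ≠ x) : (P k x).flatMap (bk x m) = P k x :=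
  bk_id x m _ (fun h => hx (List.eq_of_mem_replicate h))

/-- a letter which does not occur -/
theorem fresh (l : List ℕ) : ∃ m, m ∉ l := by
  refine ⟨l.sum + 1, fun h => ?_⟩
  have := List.single_le_sum (fun _ _ => Nat.zero_le _) _ h
  omega

theorem LT.gen {n : ℕ} (hL : LT n β) (p c q : List ℕ) (x : ℕ) (hc : x ∉ c)
    (hm : Mul c (p ++ (P 1 x ++ (c ++ (P 1 x ++ q))))) :
    RR β (p ++ (P 1 x ++ (c ++ (P 1 x ++ q))))
      (p ++ (P (n + 1) x ++ (c ++ (P (n + 1) x ++ q)))) := by
  obtain ⟨m, hmf⟩ := fresh (x :: (p ++ (c ++ q)))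
  simp only [List.mem_cons, List.mem_append, not_or] at hmf
  obtain ⟨mx, mp, mc, mq⟩ := hmf
  have h := hL (rn x m p) c (rn x m q) x (rn_nm x m mx p) hc (rn_nm x m mx q) (by
    intro a ha
    have h1 := hm a ha
    have ax : a ≠ x := fun h => hc (h ▸ ha)
    have am : a ≠ m := fun h => mc (h ▸ ha)
    rw [p1, p1]
    simp only [List.count_append] at h1 ⊢
    rw [rn_ct x m a ax am, rn_ct x m a ax am]
    exact h1)
  have h1 := h.sub (bk x m)
  rw [p1, p1] at h1
  simp only [List.flatMap_append] at h1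
  rw [bk_rn x m p mp, bk_rn x m q mq, bk_id x m c mc, bk_P x m 1 mx, bk_P x m (n + 1) mx] at h1
  exact h1

theorem HF.gen {n : ℕ} (hH : HF n β) (p c d q : List ℕ) (x : ℕ) (hc : x ∉ c) (hd : x ∉ d)
    (hm : Mul (c ++ d) (p ++ (P (2 * n) x ++ (c ++ (d ++ (P (2 * n) x ++ q)))))) :
    RR β (p ++ (P (2 * n) x ++ (c ++ (d ++ (P (2 * n) x ++ q)))))
      (p ++ (P (2 * n) x ++ (c ++ (P (2 * n) x ++ (d ++ (P (2 * n) x ++ q)))))) := by
  obtain ⟨m, hmf⟩ := fresh (x :: (p ++ (c ++ (d ++ q))))
  simp only [List.mem_cons, List.mem_append, not_or] at hmf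
  obtain ⟨mx, mp, mc, md, mq⟩ := hmf
  have h := hH (rn x m p) c d (rn x m q) x (rn_nm x m mx p) hc hd (rn_nm x m mx q) (by
    intro a ha
    have h1 := hm a ha
    have ax : a ≠ x := by
      intro h
      rw [h, List.mem_append] at ha
      rcases ha with ha | ha
      · exact hc ha
      · exact hd ha
    have am : a ≠ m := by
      intro h
      rw [h, List.mem_append] at ha
      rcases ha with ha | ha
      · exact mc ha
      · exact md ha
    simp only [List.count_append] at h1 ⊢
    rw [rn_ct x m a ax am, rn_ct x m a ax am]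
    exact h1)
  have h1 := h.sub (bk x m)
  simp only [List.flatMap_append] at h1
  rw [bk_rn x m p mp, bk_rn x m q mq, bk_id x m c mc, bk_id x m d md, bk_P x m (2 * n) mx] at h1
  exact h1

/-! ### insertion of an idempotent power between two occurrences -/

/-- `Mul` is monotone -/
theorem mul_mono {c c' w w' : List ℕ} (h : Mul c w) (hc : ∀ a ∈ c', a ∈ c)
    (hw : ∀ a, w.count a ≤ w'.count a) : Mul c' w' :=
  fun a ha => (h a (hc a ha)).trans (hw a)

theorem count_P (k x a : ℕ) : (P k x).count a = if x = a then k else 0 := by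
  rw [List.count_replicate]
  by_cases h : x = a
  · rw [if_pos h, if_pos (by rw [h]; exact beq_self_eq_true a)]
  · rw [if_neg h, if_neg (by intro h'; exact h (beq_iff_eq.1 h'))]

theorem ins0 {n : ℕ} (hn : 1 ≤ n) (ap : RR β [0, 0] (List.replicate (n + 2) 0)) (hL : LT n β)
    (hH : HF n β) (p c d q : List ℕ) (x : ℕ) (hc : x ∉ c) (hd : x ∉ d)
    (hm : Mul (c ++ d) (p ++ (P 1 x ++ (c ++ (d ++ (P 1 x ++ q)))))) :
    RR β (p ++ (P 1 x ++ (c ++ (d ++ (P 1 x ++ q)))))
      (p ++ (P 1 x ++ (c ++ (P (2 * n) x ++ (d ++ (P 1 x ++ q)))))) := by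
  have key : ∀ a, a ∈ c ++ d → 2 ≤ p.count a + (c.count a + (d.count a + q.count a)) := by
    intro a ha
    have h := hm a ha
    have ax : x ≠ a := by
      intro h
      rw [← h, List.mem_append] at ha
      rcases ha with ha | ha
      · exact hc ha
      · exact hd ha
    simp only [List.count_append, count_P, if_neg ax] at h
    omega
  -- the left side
  have a1 := hL.gen p (c ++ d) q x (by
    rw [List.mem_append, not_or]; exact ⟨hc, hd⟩) (by
    intro a ha
    have h := key a ha
    simp only [List.count_append]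
    omega)
  have a2 : RR β (p ++ (P (n + 1) x ++ (c ++ (d ++ (P (n + 1) x ++ q)))))
      (p ++ (P (n + 1 + 2 * n) x ++ (c ++ (d ++ (P (2 * n + (n + 1)) x ++ q))))) := by
    refine tr (pc ap p _ x (n + 1) (n + 1 + 2 * n) (by omega) ⟨2, rfl⟩) ?_
    have h := pc ap (p ++ (P (n + 1 + 2 * n) x ++ (c ++ d))) q x (n + 1) (2 * n + (n + 1)) (by omega)
      ⟨2, by omega⟩
    simp only [List.append_assoc] at h
    exact h
  have a3 := hH.gen (p ++ P (n + 1) x) c d (P (n + 1) x ++ q) x hc hd (by
    intro a ha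
    have h := key a ha
    simp only [List.count_append]
    omega)
  simp only [List.append_assoc, mg] at a1 a3
  have a4 : RR β (p ++ (P 1 x ++ (c ++ (d ++ (P 1 x ++ q)))))
      (p ++ (P (n + 1 + 2 * n) x ++ (c ++ (P (2 * n) x ++ (d ++ (P (2 * n + (n + 1)) x ++ q)))))) :=
    tr a1 (tr a2 a3)
  -- the right side
  have b1 := hL.gen p c (P (2 * n - 1) x ++ (d ++ (P 1 x ++ q))) x hc (by
    intro a ha
    have h := key a (List.mem_append_left _ ha)
    simp only [List.count_append]
    omega)
  have b2 := hL.gen (p ++ (P (n + 1) x ++ (c ++ P (n + 1 + (2 * n - 2)) x))) d q x hd (by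
    intro a ha
    have h := key a (List.mem_append_right _ ha)
    simp only [List.count_append]
    omega)
  simp only [List.append_assoc, mg] at b1 b2
  have e1 : 1 + (2 * n - 1) = 2 * n := by omega
  have e2 : n + 1 + (2 * n - 1) = n + 1 + (2 * n - 2) + 1 := by omega
  rw [e1, e2] at b1
  have b3 := tr b1 b2
  have e3 : n + 1 + (2 * n - 2) + (n + 1) = 2 * n + 2 * n := by omega
  rw [e3] at b3
  have b4 : RR β (p ++ (P (n + 1) x ++ (c ++ (P (2 * n + 2 * n) x ++ (d ++ (P (n + 1) x ++ q))))))
      (p ++ (P (n + 1 + 2 * n) x ++ (c ++ (P (2 * n) x ++ (d ++ (P (2 * n + (n + 1)) x ++ q)))))) := by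
    refine tr (pc ap p _ x (n + 1) (n + 1 + 2 * n) (by omega) ⟨2, rfl⟩) ?_
    have h := pc ap (p ++ (P (n + 1 + 2 * n) x ++ c)) (d ++ (P (n + 1) x ++ q)) x (2 * n)
      (2 * n + 2 * n) (by omega) ⟨2, by omega⟩
    have h' := pc ap (p ++ (P (n + 1 + 2 * n) x ++ (c ++ (P (2 * n) x ++ d)))) q x (n + 1)
      (2 * n + (n + 1)) (by omega) ⟨2, by omega⟩
    simp only [List.append_assoc] at h h'
    exact tr h.symm h'
  exact tr a4 (tr b3 b4).symm

theorem spl_l (x : ℕ) (c : List ℕ) : ∃ c1 c2, P 1 x ++ c = c1 ++ (P 1 x ++ c2) ∧ x ∉ c2 ∧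
    ∀ a ∈ c2, a ∈ c := by
  induction c with
  | nil => exact ⟨[], [], rfl, by simp, by simp⟩
  | cons b c ih =>
    obtain ⟨c1, c2, e, h1, h2⟩ := ih
    by_cases hb : b = x
    · refine ⟨x :: c1, c2, ?_, h1, fun a ha => List.mem_cons_of_mem _ (h2 a ha)⟩
      rw [hb]
      change x :: (P 1 x ++ c) = x :: (c1 ++ (P 1 x ++ c2))
      rw [e]
    · by_cases hx : c1 = []
      · rw [hx] at e
        have e' : c = c2 := by
          have e1 : x :: c = x :: c2 := e
          injection e1
        refine ⟨[], b :: c, rfl, ?_, fun a ha => ha⟩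
        rw [List.mem_cons, not_or]
        refine ⟨fun h => hb h.symm, ?_⟩
        rw [e']
        exact h1
      · obtain ⟨y, c1', rfl⟩ := List.exists_cons_of_ne_nil hx
        have e0 : x :: c = y :: (c1' ++ (P 1 x ++ c2)) := e
        have e1 : x = y := by injection e0
        have e2 : c = c1' ++ (P 1 x ++ c2) := by injection e0
        refine ⟨x :: b :: c1', c2, ?_, h1, fun a ha => List.mem_cons_of_mem _ (h2 a ha)⟩
        change x :: b :: c = x :: b :: (c1' ++ (P 1 x ++ c2))
        rw [← e2]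

theorem spl_r (x : ℕ) (d q : List ℕ) : ∃ d1 d2, d ++ (P 1 x ++ q) = d1 ++ (P 1 x ++ d2) ∧ x ∉ d1 ∧
    ∀ a ∈ d1, a ∈ d := by
  induction d with
  | nil => exact ⟨[], q, rfl, by simp, by simp⟩
  | cons b d ih =>
    obtain ⟨d1, d2, e, h1, h2⟩ := ih
    by_cases hb : b = x
    · exact ⟨[], d ++ (P 1 x ++ q), by rw [hb]; rfl, by simp, by simp⟩
    · refine ⟨b :: d1, d2, ?_, ?_, ?_⟩
      · change b :: (d ++ (P 1 x ++ q)) = b :: (d1 ++ (P 1 x ++ d2))
        rw [e]
      · rw [List.mem_cons, not_or]
        exact ⟨fun h => hb h.symm, h1⟩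
      · intro a ha
        rw [List.mem_cons] at ha
        rcases ha with rfl | ha
        · exact List.mem_cons_self
        · exact List.mem_cons_of_mem _ (h2 a ha)

/-- **Insertion.** -/
theorem ins {n : ℕ} (hn : 1 ≤ n) (ap : RR β [0, 0] (List.replicate (n + 2) 0)) (hL : LT n β)
    (hH : HF n β) (p c d q : List ℕ) (x : ℕ)
    (hm : Mul (c ++ d) (p ++ (P 1 x ++ (c ++ (d ++ (P 1 x ++ q)))))) :
    RR β (p ++ (P 1 x ++ (c ++ (d ++ (P 1 x ++ q)))))
      (p ++ (P 1 x ++ (c ++ (P (2 * n) x ++ (d ++ (P 1 x ++ q)))))) := by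
  obtain ⟨c1, c2, ec, hc, sc⟩ := spl_l x c
  obtain ⟨d1, d2, ed, hd, sd⟩ := spl_r x d q
  have f1 : p ++ (P 1 x ++ (c ++ (d ++ (P 1 x ++ q)))) =
      (p ++ c1) ++ (P 1 x ++ (c2 ++ (d1 ++ (P 1 x ++ d2)))) := by
    rw [ed, ← List.append_assoc (P 1 x) c, ec]
    simp only [List.append_assoc]
  have f2 : p ++ (P 1 x ++ (c ++ (P (2 * n) x ++ (d ++ (P 1 x ++ q))))) =
      (p ++ c1) ++ (P 1 x ++ (c2 ++ (P (2 * n) x ++ (d1 ++ (P 1 x ++ d2))))) := by
    rw [ed, ← List.append_assoc (P 1 x) c, ec]
    simp only [List.append_assoc]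
  rw [f1] at hm
  rw [f1, f2]
  refine ins0 hn ap hL hH (p ++ c1) c2 d1 d2 x hc hd ?_
  intro a ha
  refine hm a ?_
  rw [List.mem_append] at ha ⊢
  rcases ha with ha | ha
  · exact Or.inl (sc a ha)
  · exact Or.inr (sd a ha)

/-! ### the residue shift -/

/-- one letter -/
theorem sh1 (hR : SR β) (hS : SL β) (p q : List ℕ) (x y : ℕ) (hxy : y ≠ x)
    (hm : 2 ≤ (p ++ (P 2 x ++ ([y] ++ (P 1 x ++ q)))).count y) :
    RR β (p ++ (P 2 x ++ ([y] ++ (P 1 x ++ q)))) (p ++ (P 1 x ++ ([y] ++ (P 2 x ++ q)))) := by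
  have hc : y ∈ p ∨ y ∈ q := by
    by_contra hcon
    rw [not_or] at hcon
    simp only [List.count_append, count_P, if_neg (fun h : x = y => hxy h.symm),
      List.count_eq_zero.2 hcon.1, List.count_eq_zero.2 hcon.2] at hm
    have : [y].count y = 1 := by simp
    omega
  rcases hc with hc | hc
  · obtain ⟨p1, p2, rfl⟩ := List.append_of_mem hc
    have h := hS.sub (fun i => if i = 0 then [x] else if i = 1 then [y] else if i = 2 then p2 else [])
    have h1 := cx p1 q h
    have e1 : p1 ++ (([1, 2, 0, 0, 1, 0] : List ℕ).flatMap (fun i => if i = 0 then [x] else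
        if i = 1 then [y] else if i = 2 then p2 else []) ++ q) =
        p1 ++ y :: p2 ++ (P 2 x ++ ([y] ++ (P 1 x ++ q))) := by
      simp [List.replicate_succ]
    have e2 : p1 ++ (([1, 2, 0, 1, 0, 0] : List ℕ).flatMap (fun i => if i = 0 then [x] else
        if i = 1 then [y] else if i = 2 then p2 else []) ++ q) =
        p1 ++ y :: p2 ++ (P 1 x ++ ([y] ++ (P 2 x ++ q))) := by
      simp [List.replicate_succ]
    rw [e1, e2] at h1
    exact h1
  · obtain ⟨q1, q2, rfl⟩ := List.append_of_mem hc
    have h := hR.sub (fun i => if i = 0 then [x] else if i = 1 then [y] else if i = 2 then q1 else [])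
    have h1 := cx p q2 h
    have e1 : p ++ (([0, 0, 1, 0, 2, 1] : List ℕ).flatMap (fun i => if i = 0 then [x] else
        if i = 1 then [y] else if i = 2 then q1 else []) ++ q2) =
        p ++ (P 2 x ++ ([y] ++ (P 1 x ++ (q1 ++ y :: q2)))) := by
      simp [List.replicate_succ]
    have e2 : p ++ (([0, 1, 0, 0, 2, 1] : List ℕ).flatMap (fun i => if i = 0 then [x] else
        if i = 1 then [y] else if i = 2 then q1 else []) ++ q2) =
        p ++ (P 1 x ++ ([y] ++ (P 2 x ++ (q1 ++ y :: q2)))) := by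
      simp [List.replicate_succ]
    rw [e1, e2] at h1
    exact h1

/-- **Residue shift across a word.** -/
theorem shf {n : ℕ} (hn : 1 ≤ n) (ap : RR β [0, 0] (List.replicate (n + 2) 0)) (hL : LT n β)
    (hH : HF n β) (hR : SR β) (hS : SL β) (x : ℕ) : ∀ (c p q : List ℕ),
    Mul c (p ++ (P 2 x ++ (c ++ (P 1 x ++ q)))) →
    RR β (p ++ (P 2 x ++ (c ++ (P 1 x ++ q)))) (p ++ (P 1 x ++ (c ++ (P 2 x ++ q)))) := by
  intro c
  induction c with
  | nil =>
    intro p q _
    rw [List.nil_append, List.nil_append, mg, mg]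
    exact RR.refl _
  | cons y c ih =>
    intro p q hm
    by_cases hy : y = x
    · subst hy
      have h := ih (p ++ P 1 y) q (by
        intro a ha
        have h := hm a (List.mem_cons_of_mem _ ha)
        rw [p1 y c] at h
        simp only [List.count_append, count_P] at h ⊢
        split_ifs at h ⊢ <;> omega)
      rw [p1 y c]
      simp only [List.append_assoc, mg] at h ⊢
      exact h
    · -- insert `X` behind `y`
      have e0 : y :: c = [y] ++ c := rfl
      rw [e0] at hm ⊢
      have hm' : ∀ a ∈ [y] ++ c, 2 ≤ p.count a + ((P 2 x).count a + (([y] : List ℕ).count a +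
          (c.count a + ((P 1 x).count a + q.count a)))) := by
        intro a ha
        have h := hm a ha
        simp only [List.count_append] at h
        omega
      have a1 := ins hn ap hL hH (p ++ P 1 x) [y] c q x (by
        intro a ha
        have h := hm' a ha
        simp only [List.count_append, count_P] at h ⊢
        split_ifs at h ⊢ <;> omega)
      -- shift across `y`
      have a2 := sh1 hR hS p (P (2 * n - 1) x ++ (c ++ (P 1 x ++ q))) x y hy (by
        have h := hm' y (List.mem_append_left _ (List.mem_singleton.2 rfl))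
        simp only [List.count_append, count_P] at h ⊢
        split_ifs at h ⊢ <;> omega)
      -- induction
      have a3 := ih (p ++ (P 1 x ++ ([y] ++ P (2 * n - 1) x))) q (by
        intro a ha
        have h := hm' a (List.mem_append_right _ ha)
        simp only [List.count_append, count_P] at h ⊢
        split_ifs at h ⊢ <;> omega)
      -- remove `X`
      have a4 := ins hn ap hL hH p [y] c (P 1 x ++ q) x (by
        intro a ha
        have h := hm' a ha
        simp only [List.count_append, count_P] at h ⊢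
        split_ifs at h ⊢ <;> omega)
      simp only [List.append_assoc, mg] at a1 a2 a3 a4 ⊢
      have e1 : 1 + (2 * n - 1) = 2 * n := by omega
      have e2 : 2 + (2 * n - 1) = 2 * n - 1 + 2 := by omega
      have e3 : 2 * n - 1 + 1 = 2 * n := by omega
      rw [e1, e2] at a2
      rw [e3] at a3
      exact tr a1 (tr a2 (tr a3 a4.symm))

/-! ### the two families -/

theorem i1 {n : ℕ} (hn : 1 ≤ n) (ap : RR β [0, 0] (List.replicate (n + 2) 0)) (hL : LT n β)
    (hH : HF n β) : MWZ.I1 n (RR β) := by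
  intro p c q x hm
  have h := ins hn ap hL hH p [] c q x hm
  rw [List.nil_append, List.nil_append, mg] at h
  have h2 := pc ap p (c ++ (P 1 x ++ q)) x (n + 1) (1 + 2 * n) (by omega) ⟨1, by omega⟩
  exact tr h h2.symm

theorem i2 {n : ℕ} (hn : 1 ≤ n) (ap : RR β [0, 0] (List.replicate (n + 2) 0)) (hL : LT n β)
    (hH : HF n β) (hR : SR β) (hS : SL β) : MWZ.I2 (RR β) := by
  intro p c d q x hm
  have hm' : ∀ a ∈ c ++ d, 2 ≤ p.count a + ((P 3 x).count a + (c.count a + (d.count a +
      q.count a))) := by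
    intro a ha
    have h := hm a ha
    rw [p1, p1, p1] at h
    simp only [List.count_append, count_P] at h ⊢
    split_ifs at h ⊢ <;> omega
  -- `p x c x d x q ≈ p x c x X d x q`
  have a1 := ins hn ap hL hH (p ++ (P 1 x ++ c)) [] d q x (by
    intro a ha
    have h := hm' a (List.mem_append_right _ (by rwa [List.nil_append] at ha))
    simp only [List.count_append, count_P] at h ⊢
    split_ifs at h ⊢ <;> omega)
  -- `p xx c d x q ≈ p xx c X d x q`
  have a2 := ins hn ap hL hH (p ++ P 1 x) c d q x (by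
    intro a ha
    have h := hm' a ha
    simp only [List.count_append, count_P] at h ⊢
    split_ifs at h ⊢ <;> omega)
  -- `p xx c X d x q ≈ p x c x X d x q`
  have a3 := shf hn ap hL hH hR hS x c p (P (2 * n - 1) x ++ (d ++ (P 1 x ++ q))) (by
    intro a ha
    have h := hm' a (List.mem_append_left _ ha)
    simp only [List.count_append, count_P] at h ⊢
    split_ifs at h ⊢ <;> omega)
  simp only [List.append_assoc, mg, List.nil_append] at a1 a2 a3
  have e1 : 1 + (2 * n - 1) = 2 * n := by omega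
  have e2 : 2 + (2 * n - 1) = 1 + 2 * n := by omega
  rw [e1, e2] at a3
  exact tr a1 (tr a2 a3).symm

/-! ### the shifts from the two letter base -/

/-- two blocks -/
def b2 (l m : List ℕ) : ℕ → List ℕ := fun j => if j = 0 then l else if j = 1 then m else []

theorem two_b2 {l m : List ℕ} (h : ∀ c ∈ l ++ m, c = 0 ∨ c = 1) : Two01 1 (b2 l m) := by
  intro j hj c hc
  have hj' : j = 0 ∨ j = 1 := by omega
  rcases hj' with rfl | rfl
  · exact h c (List.mem_append_left _ hc)
  · exact h c (List.mem_append_right _ hc)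

theorem ok_b2 {l m : List ℕ} (h : ∀ c ∈ l ++ m, c = 0 ∨ c = 1)
    (h0 : 2 ≤ (l ++ m).count 0) (h1 : 2 ≤ (l ++ m).count 1) : OkB 1 (b2 l m) := by
  have e : ∀ c, deg 1 (ty (b2 l m) c) = (l ++ m).count c := by
    intro c
    rw [List.count_append]
    simp [deg, Finset.sum_range_succ, ty, b2]
  constructor
  · intro j hj c hc hs
    have := two_b2 h j hj c hc
    omega
  · intro j hj c hc
    have h2 := two_b2 h j hj c hc
    have h3 : 2 ≤ deg 1 (ty (b2 l m) c) := by
      rcases h2 with rfl | rfl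
      · rw [e]; exact h0
      · rw [e]; exact h1
    exact h3

theorem sr_of {n : ℕ} (hB : HBP n β) : SR β := by
  have key := hB.hst 1 (b2 [0, 0, 1, 0] [1]) (b2 [0, 1, 0, 0] [1])
    (ok_b2 (by decide) (by decide) (by decide)) (ok_b2 (by decide) (by decide) (by decide))
    (two_b2 (by decide)) (two_b2 (by decide)) (by
      intro j hj
      have hj' : j = 0 ∨ j = 1 := by omega
      rcases hj' with rfl | rfl
      · exact Or.inl (by decide)
      · exact Or.inl (by decide)) (by
      intro j hj
      have hj' : j = 0 ∨ j = 1 := by omega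
      rcases hj' with rfl | rfl
      · exact Or.inl (by decide)
      · exact Or.inl (by decide)) (by
      intro j hj hcom
      have hj' : j = 0 ∨ j = 1 := by omega
      rcases hj' with rfl | rfl
      · unfold Fst b2
        refine ⟨?_, ?_⟩ <;> decide
      · unfold Fst b2
        refine ⟨?_, ?_⟩ <;> decide)
  exact key

theorem sl_of {n : ℕ} (hB : HBP n β) : SL β := by
  have key := hB.hst 1 (b2 [1] [0, 0, 1, 0]) (b2 [1] [0, 1, 0, 0])
    (ok_b2 (by decide) (by decide) (by decide)) (ok_b2 (by decide) (by decide) (by decide))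
    (two_b2 (by decide)) (two_b2 (by decide)) (by
      intro j hj
      have hj' : j = 0 ∨ j = 1 := by omega
      rcases hj' with rfl | rfl
      · exact Or.inl (by decide)
      · exact Or.inl (by decide)) (by
      intro j hj
      have hj' : j = 0 ∨ j = 1 := by omega
      rcases hj' with rfl | rfl
      · exact Or.inl (by decide)
      · exact Or.inl (by decide)) (by
      intro j hj hcom
      have hj' : j = 0 ∨ j = 1 := by omega
      rcases hj' with rfl | rfl
      · unfold Fst b2
        refine ⟨?_, ?_⟩ <;> decide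
      · unfold Fst b2
        refine ⟨?_, ?_⟩ <;> decide)
  exact key

/-- **`I1`, `I2` for all words from `LT`, `HF` and the two letter base.** -/
theorem i12 {n : ℕ} (hB : HBP n β) (hL : LT n β) (hH : HF n β) :
    MWZ.I1 n (RR β) ∧ MWZ.I2 (RR β) :=
  ⟨i1 hB.pos hB.ap hL hH, i2 hB.pos hB.ap hL hH (sr_of hB) (sl_of hB)⟩

end Pool.Agent.Helper96_MWV
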