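import Pool.Agent.Helper96_MWV.Comp

/-!
# The base cases of the induction for thin runs (MP_23468a_al)
-/

set_option autoImplicit false

namespace Pool.Agent.Helper96_MWV

open Pool.Agent.Helper14_MV Pool.Agent.Helper2_MV Pool.Agent.MVO Pool.Agent.MVO.Sys
  Pool.Agent.MWL Pool.Agent.MWS Pool.Agent.MWN Pool.Agent.MWNP

variable {β : FIC}

theorem fst_of_sub {u : List ℕ} (h : [0, 1].Sublist u ∧ [1, 0].Sublist u) (st : Bool) :
    ¬ Fst st u := by
  intro hf
  unfold Fst at hf
  cases st with
  | false => exact hf h.2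
  | true => exact hf h.1

theorem fst_single (st : Bool) : Fst st [1] := by
  unfold Fst
  cases st <;> decide

/-- the light letter has its other occurrence to the right -/
theorem base_r {n : ℕ} (hB : HBP n β) :
    RR β ((P 1 0 ++ ([1] ++ P 1 0)) ++ 2 :: [1])
      ((P (n + 1) 0 ++ ([1] ++ P (n + 1) 0)) ++ 2 :: [1]) := by
  have hn := hB.pos
  have s1 : ∀ j, 1 ≤ j → [0, 1].Sublist (P j 0 ++ ([1] ++ P j 0)) ∧
      [1, 0].Sublist (P j 0 ++ ([1] ++ P j 0)) := fun j hj => sub2 hj (by simp)
  have c0 : ∀ j, (P j 0 ++ ([1] ++ P j 0)).count 0 = j + j := by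
    intro j
    rw [List.count_append, List.count_append, count_P]
    simp
  have c1 : ∀ j, (P j 0 ++ ([1] ++ P j 0)).count 1 = 1 := by
    intro j
    rw [List.count_append, List.count_append, count_P]
    simp
  have hmem : ∀ j, ∀ c ∈ (P j 0 ++ ([1] ++ P j 0)) ++ [1], c = 0 ∨ c = 1 := by
    intro j c hc
    simp only [List.mem_append, List.mem_replicate, List.mem_singleton] at hc
    omega
  have ok : ∀ j, 1 ≤ j → OkB 1 (b2 (P j 0 ++ ([1] ++ P j 0)) [1]) := fun j hj =>
    ok_b2 (hmem j) (by rw [List.count_append, c0]; omega)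
      (by rw [List.count_append, c1]; simp)
  have key := hB.hst 1 (b2 (P 1 0 ++ ([1] ++ P 1 0)) [1])
    (b2 (P (n + 1) 0 ++ ([1] ++ P (n + 1) 0)) [1]) (ok 1 le_rfl) (ok (n + 1) (by omega))
    (two_b2 (hmem 1)) (two_b2 (hmem (n + 1))) (by
      intro j hj
      have hj' : j = 0 ∨ j = 1 := by omega
      rcases hj' with rfl | rfl
      · right
        change 2 ≤ (P 1 0 ++ ([1] ++ P 1 0)).count 0 ∧
          2 ≤ (P (n + 1) 0 ++ ([1] ++ P (n + 1) 0)).count 0 ∧
          (P 1 0 ++ ([1] ++ P 1 0)).count 0 ≡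
            (P (n + 1) 0 ++ ([1] ++ P (n + 1) 0)).count 0 [MOD n]
        rw [c0, c0]
        refine ⟨by omega, by omega, ?_⟩
        have e : n + 1 + (n + 1) = n * 2 + (1 + 1) := by ring
        rw [e]
        exact (Nat.mul_add_mod n 2 (1 + 1)).symm
      · exact Or.inl rfl) (by
      intro j hj
      have hj' : j = 0 ∨ j = 1 := by omega
      rcases hj' with rfl | rfl
      · left
        change (P 1 0 ++ ([1] ++ P 1 0)).count 1 = (P (n + 1) 0 ++ ([1] ++ P (n + 1) 0)).count 1
        rw [c1, c1]
      · exact Or.inl rfl) (by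
      intro j hj _
      have hj' : j = 0 ∨ j = 1 := by omega
      rcases hj' with rfl | rfl
      · exact ⟨⟨fun h => absurd h (fst_of_sub (s1 1 le_rfl) false),
          fun h => absurd h (fst_of_sub (s1 (n + 1) (by omega)) false)⟩,
          ⟨fun h => absurd h (fst_of_sub (s1 1 le_rfl) true),
          fun h => absurd h (fst_of_sub (s1 (n + 1) (by omega)) true)⟩⟩
      · exact ⟨Iff.rfl, Iff.rfl⟩)
  exact key

/-- the light letter has its other occurrence to the left -/
theorem base_l {n : ℕ} (hB : HBP n β) :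
    RR β ([1] ++ 2 :: (P 1 0 ++ ([1] ++ P 1 0)))
      ([1] ++ 2 :: (P (n + 1) 0 ++ ([1] ++ P (n + 1) 0))) := by
  have hn := hB.pos
  have s1 : ∀ j, 1 ≤ j → [0, 1].Sublist (P j 0 ++ ([1] ++ P j 0)) ∧
      [1, 0].Sublist (P j 0 ++ ([1] ++ P j 0)) := fun j hj => sub2 hj (by simp)
  have c0 : ∀ j, (P j 0 ++ ([1] ++ P j 0)).count 0 = j + j := by
    intro j
    rw [List.count_append, List.count_append, count_P]
    simp
  have c1 : ∀ j, (P j 0 ++ ([1] ++ P j 0)).count 1 = 1 := by
    intro j
    rw [List.count_append, List.count_append, count_P]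
    simp
  have hmem : ∀ j, ∀ c ∈ [1] ++ (P j 0 ++ ([1] ++ P j 0)), c = 0 ∨ c = 1 := by
    intro j c hc
    simp only [List.mem_append, List.mem_replicate, List.mem_singleton] at hc
    omega
  have ok : ∀ j, 1 ≤ j → OkB 1 (b2 [1] (P j 0 ++ ([1] ++ P j 0))) := fun j hj =>
    ok_b2 (hmem j) (by rw [List.count_append, c0]; omega)
      (by rw [List.count_append, c1]; simp)
  have key := hB.hst 1 (b2 [1] (P 1 0 ++ ([1] ++ P 1 0)))
    (b2 [1] (P (n + 1) 0 ++ ([1] ++ P (n + 1) 0))) (ok 1 le_rfl) (ok (n + 1) (by omega))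
    (two_b2 (hmem 1)) (two_b2 (hmem (n + 1))) (by
      intro j hj
      have hj' : j = 0 ∨ j = 1 := by omega
      rcases hj' with rfl | rfl
      · exact Or.inl rfl
      · right
        change 2 ≤ (P 1 0 ++ ([1] ++ P 1 0)).count 0 ∧
          2 ≤ (P (n + 1) 0 ++ ([1] ++ P (n + 1) 0)).count 0 ∧
          (P 1 0 ++ ([1] ++ P 1 0)).count 0 ≡
            (P (n + 1) 0 ++ ([1] ++ P (n + 1) 0)).count 0 [MOD n]
        rw [c0, c0]
        refine ⟨by omega, by omega, ?_⟩
        have e : n + 1 + (n + 1) = n * 2 + (1 + 1) := by ring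
        rw [e]
        exact (Nat.mul_add_mod n 2 (1 + 1)).symm) (by
      intro j hj
      have hj' : j = 0 ∨ j = 1 := by omega
      rcases hj' with rfl | rfl
      · exact Or.inl rfl
      · left
        change (P 1 0 ++ ([1] ++ P 1 0)).count 1 = (P (n + 1) 0 ++ ([1] ++ P (n + 1) 0)).count 1
        rw [c1, c1]) (by
      intro j hj _
      have hj' : j = 0 ∨ j = 1 := by omega
      rcases hj' with rfl | rfl
      · exact ⟨Iff.rfl, Iff.rfl⟩
      · exact ⟨⟨fun h => absurd h (fst_of_sub (s1 1 le_rfl) false),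
          fun h => absurd h (fst_of_sub (s1 (n + 1) (by omega)) false)⟩,
          ⟨fun h => absurd h (fst_of_sub (s1 1 le_rfl) true),
          fun h => absurd h (fst_of_sub (s1 (n + 1) (by omega)) true)⟩⟩)
  exact key

/-- one light letter, arbitrary context -/
theorem base1 {n : ℕ} (hB : HBP n β) (p q : List ℕ) (x z : ℕ) (h : z ∈ p ∨ z ∈ q) :
    RR β (p ++ (P 1 x ++ ([z] ++ (P 1 x ++ q)))) (p ++ (P (n + 1) x ++ ([z] ++
      (P (n + 1) x ++ q)))) := by
  rcases h with h | h
  · obtain ⟨p1, p2, rfl⟩ := List.append_of_mem h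
    have h1 := cx p1 q ((base_l hB).sub (fun i => if i = 0 then [x] else if i = 1 then [z] else p2))
    have e : ∀ j, ([1] ++ 2 :: (P j 0 ++ ([1] ++ P j 0))).flatMap
        (fun i => if i = 0 then [x] else if i = 1 then [z] else p2) =
        [z] ++ (p2 ++ (P j x ++ ([z] ++ P j x))) := by
      intro j
      have e0 : (P j 0).flatMap (fun i => if i = 0 then [x] else if i = 1 then [z] else p2) =
          P j x := by
        rw [flat_P]
        have := pwd_P j 1 x
        rw [Nat.mul_one] at this
        exact this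
      simp only [List.flatMap_append, List.flatMap_cons, List.flatMap_nil, e0]
      simp
    rw [e, e] at h1
    simp only [List.append_assoc, List.cons_append, List.nil_append] at h1 ⊢
    exact h1
  · obtain ⟨q1, q2, rfl⟩ := List.append_of_mem h
    have h1 := cx p q2 ((base_r hB).sub (fun i => if i = 0 then [x] else if i = 1 then [z] else q1))
    have e : ∀ j, ((P j 0 ++ ([1] ++ P j 0)) ++ 2 :: [1]).flatMap
        (fun i => if i = 0 then [x] else if i = 1 then [z] else q1) =
        (P j x ++ ([z] ++ P j x)) ++ (q1 ++ [z]) := by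
      intro j
      have e0 : (P j 0).flatMap (fun i => if i = 0 then [x] else if i = 1 then [z] else q1) =
          P j x := by
        rw [flat_P]
        have := pwd_P j 1 x
        rw [Nat.mul_one] at this
        exact this
      rw [List.flatMap_append, List.flatMap_cons, List.flatMap_append, List.flatMap_append, e0]
      simp
    rw [e, e] at h1
    simp only [List.append_assoc, List.cons_append, List.nil_append] at h1 ⊢
    exact h1

end Pool.Agent.Helper96_MWV
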