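import Pool.Agent.MWT.Defs
import Pool.Agent.Helper96_MWV.Base

/-!
# The induction for thin runs: `LfB` from the situation of squad MWT (MP_23468a_al)
-/

set_option autoImplicit false

namespace Pool.Agent.Helper96_MWV

open Pool.Agent.Helper14_MV Pool.Agent.Helper2_MV

/-- the last row of squad MWT: there is no minimal thin run which is not thick -/
def RowT : Prop := ∀ (n : ℕ) (β : FIC) (m : ℕ) (R : List ℕ) (pl : ℕ → List ℕ) (c : List ℕ),
  MWT.Wo n β → (∀ m' < m, LfBm n m' β) →
  (∀ c', MWT.Cn n m c' → MWT.nd c' < MWT.nd c → ∀ R' pl', MWT.Pl m R' pl' →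
    MWT.Th n β R' pl' c') →
  Fil n β → MWT.Cn n m c → 1 ≤ m → 2 ≤ MWT.nd c → MWT.Pl m R pl → MWT.Th n β R pl c

variable {β : FIC}

theorem bp_split (R : List ℕ) (pl : ℕ → List ℕ) (h0 : 0 ∈ R) (hR : R.Nodup) :
    ∃ pre post : List ℕ, (∀ L, MWT.Bp R pl L = pre ++ (L ++ post)) ∧
      ∀ a, (∃ r ∈ R, r ≠ 0 ∧ a ∈ pl r) → a ∈ pre ∨ a ∈ post := by
  obtain ⟨R1, R2, rfl⟩ := List.append_of_mem h0
  rw [List.nodup_append, List.nodup_cons] at hR
  obtain ⟨-, ⟨h2, -⟩, h3⟩ := hR
  have h1 : 0 ∉ R1 := fun h => h3 0 h 0 List.mem_cons_self rfl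
  have e : ∀ (T : List ℕ) (L : List ℕ), 0 ∉ T →
      T.flatMap (fun r => (if r = 0 then L else pl r) ++ [3 * r + 2]) =
        T.flatMap (fun r => pl r ++ [3 * r + 2]) := by
    intro T L hT
    refine List.flatMap_congr (fun r hr => ?_)
    rw [if_neg (fun h : r = 0 => hT (by rw [← h]; exact hr))]
  refine ⟨R1.flatMap (fun r => pl r ++ [3 * r + 2]),
    2 :: R2.flatMap (fun r => pl r ++ [3 * r + 2]), ?_, ?_⟩
  · intro L
    unfold MWT.Bp MVD.Bw
    rw [List.flatMap_append, List.flatMap_cons, e R1 L h1, e R2 L h2]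
    simp
  · rintro a ⟨r, hr, hr0, ha⟩
    rw [List.mem_append, List.mem_cons] at hr
    rcases hr with hr | hr | hr
    · left
      rw [List.mem_flatMap]
      exact ⟨r, hr, List.mem_append_left _ ha⟩
    · exact absurd hr hr0
    · right
      rw [List.mem_cons, List.mem_flatMap]
      exact Or.inr ⟨r, hr, List.mem_append_left _ ha⟩

theorem th_one {n m : ℕ} (hB : MWNP.HBP n β) {R : List ℕ} {pl : ℕ → List ℕ} {c : List ℕ}
    (hP : MWT.Pl m R pl) (hm : 1 ≤ m) (hc : MWT.Cn n m c) (hk : MWT.nd c < 2) :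
    MWT.Th n β R pl c := by
  have m1 : 1 ∈ c := by
    have := hc.li 0 (by omega)
    exact List.count_pos_iff.1 (by rw [Nat.mul_zero, Nat.zero_add] at this; omega)
  have all : ∀ a ∈ c, a = 1 := by
    intro a ha
    by_contra h
    have h2 : ({1, a} : Finset ℕ) ⊆ c.toFinset := by
      intro b hb
      rw [Finset.mem_insert, Finset.mem_singleton] at hb
      rw [List.mem_toFinset]
      rcases hb with rfl | rfl
      · exact m1
      · exact ha
    have h3 := Finset.card_le_card h2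
    rw [Finset.card_pair (fun e => h e.symm)] at h3
    unfold MWT.nd at hk
    omega
  have c1 : c = [1] := by
    have h1 := hc.li 0 (by omega)
    rw [Nat.mul_zero, Nat.zero_add] at h1
    have h2 : c = List.replicate c.length 1 := List.eq_replicate_iff.2 ⟨rfl, all⟩
    rw [h2, List.count_replicate_self] at h1
    rw [h2, h1]
    rfl
  subst c1
  obtain ⟨pre, post, e, ho⟩ := bp_split R pl hP.z hP.nd
  have h1 : 1 ∈ pre ∨ 1 ∈ post := by
    obtain ⟨r, hr, hr0, h, -⟩ := hP.ex 0 (by omega)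
    refine ho 1 ⟨r, hr, hr0, ?_⟩
    rw [h]
    simp
  unfold MWT.Th
  rw [e, e]
  have h2 := base1 hB pre post 0 1 h1
  simp only [List.append_assoc] at h2 ⊢
  exact h2

/-- **The induction.** -/
theorem lf_of {n : ℕ} (hRow : RowT) (wo : MWT.Wo n β) (hB : MWNP.HBP n β) (fl : Fil n β) :
    ∀ m, LfBm n m β := by
  intro m
  induction m using Nat.strong_induction_on with
  | _ m ih =>
  rcases Nat.eq_zero_or_pos m with rfl | hm
  · exact lf0 hB
  · have main : ∀ (k : ℕ) (c : List ℕ), MWT.nd c = k → MWT.Cn n m c → ∀ R pl, MWT.Pl m R pl →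
        MWT.Th n β R pl c := by
      intro k
      induction k using Nat.strong_induction_on with
      | _ k ihk =>
      intro c hk hc R pl hP
      by_cases h2 : MWT.nd c < 2
      · exact th_one hB hP hm hc h2
      · exact hRow n β m R pl c wo ih (fun c' hc' hlt R' pl' hP' =>
          ihk (MWT.nd c') (by omega) c' rfl hc' R' pl' hP') fl hc hm (by omega) hP
    refine lfbm_of_th ?_
    intro R hR
    have hc := cn_Cn n (Finset.range (m + 1)) m
    have hP : MWT.Pl m R MWT.pl0 := by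
      refine ⟨hR.nodup_iff.2 List.nodup_range, hR.mem_iff.2 (List.mem_range.2 (by omega)), ?_, ?_⟩
      · intro d hd
        refine ⟨d + 1, hR.mem_iff.2 (List.mem_range.2 (by omega)), by omega, ?_, ?_⟩
        · unfold MWT.pl0
          rw [Nat.add_sub_cancel]
        · intro s _ hs0 hsr h
          unfold MWT.pl0 at h
          rw [List.mem_singleton] at h
          omega
      · intro r hr hr0
        right
        have := List.mem_range.1 (hR.mem_iff.1 hr)
        exact ⟨r - 1, by omega, rfl⟩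
    exact main _ _ rfl ⟨hc.li, hc.lo, hc.bl⟩ R MWT.pl0 hP

theorem lfB_of {n : ℕ} (hRow : RowT) (wo : MWT.Wo n β) (hB : MWNP.HBP n β) (fl : Fil n β) :
    LfB n β :=
  fun m z c p q x hA => lf_of hRow wo hB fl m z c p q x hA

/-- **`I1`, `I2` for all words** from the last row of MWT and the fill statement. -/
theorem i12f {n : ℕ} (hRow : RowT) (wo : MWT.Wo n β) (hB : MWNP.HBP n β)
    (h0 : RR β [0, 0, 1, 1] [1, 1, 0, 0]) (fl : Fil n β) : MWZ.I1 n (RR β) ∧ MWZ.I2 (RR β) :=
  i12r hB h0 (lfB_of hRow wo hB fl) (rfb_of hB.ap hB.pos fl)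

end Pool.Agent.Helper96_MWV
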