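import Pool.Agent.Helper96_MWV.Ind

/-!
# From runs to all words (MP_23468a_al)

A run is a word `Z_0 z_0 Z_1 z_1 .. z_(m-1) Z_m` with distinct letters `z_i` which occur once in it and
again outside, and markers `Z_i = c_i^(n+1)`, `c_i` local.
`LfB`: `x Z_0 z_0 .. Z_m x ≈ x^(n+1) Z_0 z_0 .. Z_m x^(n+1)`.
`RfB`: `X z_0 Z_1 z_1 .. z_(m-1) X ≈ X z_0 Z_1 X z_1 .. z_(m-1) X`, `X = x^(2n)`.
From these two facts the statements `LT`, `HF` follow for all words.
-/

set_option autoImplicit false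

namespace Pool.Agent.Helper96_MWV

open Pool.Agent.Helper14_MV Pool.Agent.Helper2_MV Pool.Agent.MVO Pool.Agent.MVO.Sys
  Pool.Agent.MWL Pool.Agent.MWS Pool.Agent.MWN Pool.Agent.MWNP

/-- the word `Z_0 z_0 Z_1 z_1 .. z_(m-1) Z_m` -/
def wd (z : ℕ → ℕ) (Z : ℕ → List ℕ) : ℕ → List ℕ
  | 0 => Z 0
  | m + 1 => wd z Z m ++ z m :: Z (m + 1)

/-- admissible runs: the `z_i` are distinct and occur outside, the markers are new letters -/
structure Adm (m : ℕ) (z c : ℕ → ℕ) (p q : List ℕ) (x : ℕ) : Prop where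
  out : ∀ i < m, z i ∈ p ∨ z i ∈ q
  zin : ∀ i < m, ∀ j < m, z i = z j → i = j
  zx : ∀ i < m, z i ≠ x
  xp : x ∉ p
  xq : x ∉ q
  cin : ∀ i ≤ m, ∀ j ≤ m, c i = c j → i = j
  cx : ∀ i ≤ m, c i ≠ x
  cz : ∀ i ≤ m, ∀ j < m, c i ≠ z j
  cp : ∀ i ≤ m, c i ∉ p
  cq : ∀ i ≤ m, c i ∉ q

/-- thin run: `x C_0 z_0 C_1 .. z_(m-1) C_m x ≈ x^(n+1) C_0 z_0 .. C_m x^(n+1)`, `C_i = c_i^(n+1)` -/
def LfB (n : ℕ) (β : FIC) : Prop := ∀ (m : ℕ) (z c : ℕ → ℕ) (p q : List ℕ) (x : ℕ),
  Adm m z c p q x →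
    RR β (p ++ (P 1 x ++ (wd z (fun i => P (n + 1) (c i)) m ++ (P 1 x ++ q))))
      (p ++ (P (n + 1) x ++ (wd z (fun i => P (n + 1) (c i)) m ++ (P (n + 1) x ++ q))))

/-- the interior gaps -/
def ig (m : ℕ) (Z : ℕ → List ℕ) (i : ℕ) : List ℕ := if i = 0 ∨ i = m then [] else Z i

/-- heavy run: `X z_0 C_1 z_1 .. C_(m-1) z_(m-1) X ≈ X z_0 C_1 X z_1 .. C_(m-1) X z_(m-1) X` with
`X = x^(2n)`, `C_i = c_i^(n+1)` -/
def RfB (n : ℕ) (β : FIC) : Prop := ∀ (m : ℕ) (z c : ℕ → ℕ) (p q : List ℕ) (x : ℕ),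
  Adm m z c p q x →
    RR β (p ++ (P (2 * n) x ++ (wd z (ig m (fun i => P (n + 1) (c i))) m ++ (P (2 * n) x ++ q))))
      (p ++ (P (2 * n) x ++ (wd z (ig m (fun i => P (n + 1) (c i) ++ P (2 * n) x)) m ++
        (P (2 * n) x ++ q))))

variable {β : FIC}

/-! ### words `wd` -/

theorem wd_ext {z z' : ℕ → ℕ} {Z Z' : ℕ → List ℕ} : ∀ {m : ℕ}, (∀ i < m, z i = z' i) →
    (∀ i ≤ m, Z i = Z' i) → wd z Z m = wd z' Z' m
  | 0, _, h => h 0 le_rfl
  | m + 1, hz, h => by
    change wd z Z m ++ z m :: Z (m + 1) = wd z' Z' m ++ z' m :: Z' (m + 1)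
    rw [wd_ext (fun i hi => hz i (by omega)) (fun i hi => h i (by omega)), hz m (by omega),
      h (m + 1) le_rfl]

theorem wd_congr {z : ℕ → ℕ} {Z Z' : ℕ → List ℕ} : ∀ {m : ℕ},
    (∀ i ≤ m, RR β (Z i) (Z' i)) → RR β (wd z Z m) (wd z Z' m)
  | 0, h => h 0 le_rfl
  | m + 1, h => by
    have h1 := wd_congr (z := z) (fun i hi => h i (by omega) : ∀ i ≤ m, RR β (Z i) (Z' i))
    have h2 : RR β (z m :: Z (m + 1)) (z m :: Z' (m + 1)) :=
      (RR.refl [z m]).append (h (m + 1) le_rfl)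
    exact h1.append h2

theorem wd_flat {z : ℕ → ℕ} {Z : ℕ → List ℕ} (g : ℕ → List ℕ) : ∀ {m : ℕ},
    (∀ i < m, g (z i) = [z i]) → (wd z Z m).flatMap g = wd z (fun i => (Z i).flatMap g) m
  | 0, _ => rfl
  | m + 1, h => by
    change (wd z Z m ++ z m :: Z (m + 1)).flatMap g =
      wd z (fun i => (Z i).flatMap g) m ++ z m :: (Z (m + 1)).flatMap g
    rw [List.flatMap_append, wd_flat g (fun i hi => h i (by omega)), List.flatMap_cons,
      h m (by omega)]
    rfl

theorem mem_wd_z {z : ℕ → ℕ} {Z : ℕ → List ℕ} : ∀ {m i : ℕ}, i < m → z i ∈ wd z Z m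
  | 0, _, h => by omega
  | m + 1, i, h => by
    change z i ∈ wd z Z m ++ z m :: Z (m + 1)
    rw [List.mem_append, List.mem_cons]
    by_cases hi : i = m
    · exact Or.inr (Or.inl (by rw [hi]))
    · exact Or.inl (mem_wd_z (by omega))

theorem mem_wd_Z {z : ℕ → ℕ} {Z : ℕ → List ℕ} {a : ℕ} : ∀ {m i : ℕ}, i ≤ m → a ∈ Z i →
    a ∈ wd z Z m
  | 0, i, h, ha => by
    obtain rfl : i = 0 := by omega
    exact ha
  | m + 1, i, h, ha => by
    change a ∈ wd z Z m ++ z m :: Z (m + 1)
    rw [List.mem_append, List.mem_cons]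
    by_cases hi : i = m + 1
    · exact Or.inr (Or.inr (hi ▸ ha))
    · exact Or.inl (mem_wd_Z (by omega) ha)

theorem wd_head (z : ℕ → ℕ) (Z : ℕ → List ℕ) : ∀ m : ℕ,
    wd z Z m = Z 0 ++ wd z (fun i => if i = 0 then [] else Z i) m
  | 0 => by
    change Z 0 = Z 0 ++ (if 0 = 0 then [] else Z 0)
    rw [if_pos rfl, List.append_nil]
  | m + 1 => by
    change wd z Z m ++ z m :: Z (m + 1) =
      Z 0 ++ (wd z (fun i => if i = 0 then [] else Z i) m ++
        z m :: (if m + 1 = 0 then [] else Z (m + 1)))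
    rw [wd_head z Z m, if_neg (by omega), List.append_assoc]

theorem wd_ends (z : ℕ → ℕ) (Z : ℕ → List ℕ) (m : ℕ) :
    wd z Z (m + 1) = Z 0 ++ (wd z (ig (m + 1) Z) (m + 1) ++ Z (m + 1)) := by
  have h1 : wd z (ig (m + 1) Z) (m + 1) =
      wd z (fun i => if i = 0 then [] else Z i) m ++ [z m] := by
    change wd z (ig (m + 1) Z) m ++ z m :: ig (m + 1) Z (m + 1) = _
    have e1 : ig (m + 1) Z (m + 1) = [] := by unfold ig; rw [if_pos (Or.inr rfl)]
    rw [e1]
    congr 1
    refine wd_ext (fun _ _ => rfl) ?_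
    intro i hi
    unfold ig
    by_cases h0 : i = 0
    · rw [if_pos (Or.inl h0), if_pos h0]
    · rw [if_neg (by omega), if_neg h0]
  rw [h1]
  change wd z Z m ++ z m :: Z (m + 1) = _
  rw [wd_head z Z m]
  simp only [List.append_assoc, List.cons_append, List.nil_append]

/-- concatenation of two words -/
theorem wd_add (z z' : ℕ → ℕ) (Z Z' : ℕ → List ℕ) (g : ℕ) : ∀ k : ℕ,
    wd (fun i => if i < g then z i else z' (i - g))
      (fun i => if i < g then Z i else if i = g then Z g ++ Z' 0 else Z' (i - g)) (g + k) =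
      wd z Z g ++ wd z' Z' k
  | 0 => by
    rw [Nat.add_zero]
    change _ = wd z Z g ++ Z' 0
    cases g with
    | zero => rfl
    | succ j =>
      change wd (fun i => if i < j + 1 then z i else z' (i - (j + 1)))
        (fun i => if i < j + 1 then Z i else if i = j + 1 then Z (j + 1) ++ Z' 0 else
          Z' (i - (j + 1))) j ++ (if j < j + 1 then z j else z' (j - (j + 1))) ::
          (if j + 1 < j + 1 then Z (j + 1) else if j + 1 = j + 1 then Z (j + 1) ++ Z' 0 else
          Z' (j + 1 - (j + 1))) = (wd z Z j ++ z j :: Z (j + 1)) ++ Z' 0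
      rw [if_pos (by omega), if_neg (by omega), if_pos rfl]
      have e : wd (fun i => if i < j + 1 then z i else z' (i - (j + 1)))
        (fun i => if i < j + 1 then Z i else if i = j + 1 then Z (j + 1) ++ Z' 0 else
          Z' (i - (j + 1))) j = wd z Z j := by
        refine wd_ext ?_ ?_
        · intro i hi
          exact if_pos (by omega)
        · intro i hi
          exact if_pos (by omega)
      rw [e]
      simp only [List.append_assoc, List.cons_append]
  | k + 1 => by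
    have ih := wd_add z z' Z Z' g k
    change wd (fun i => if i < g then z i else z' (i - g))
      (fun i => if i < g then Z i else if i = g then Z g ++ Z' 0 else Z' (i - g)) (g + k) ++
      (if g + k < g then z (g + k) else z' (g + k - g)) ::
      (if g + k + 1 < g then Z (g + k + 1) else if g + k + 1 = g then Z g ++ Z' 0 else
        Z' (g + k + 1 - g)) = wd z Z g ++ (wd z' Z' k ++ z' k :: Z' (k + 1))
    rw [ih, if_neg (by omega), if_neg (by omega), if_neg (by omega)]
    have e1 : g + k - g = k := by omega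
    have e2 : g + k + 1 - g = k + 1 := by omega
    rw [e1, e2, List.append_assoc]

/-! ### powers of words and commutation -/

/-- `w^k` -/
def pwd : ℕ → List ℕ → List ℕ
  | 0, _ => []
  | k + 1, w => w ++ pwd k w

theorem pwd_P (k m a : ℕ) : pwd k (P m a) = P (k * m) a := by
  induction k with
  | zero => rw [Nat.zero_mul]; rfl
  | succ k ih =>
    change P m a ++ pwd k (P m a) = _
    rw [ih, ← List.replicate_add, Nat.succ_mul, Nat.add_comm]

theorem flat_P (g : ℕ → List ℕ) (k a : ℕ) : (P k a).flatMap g = pwd k (g a) := by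
  induction k with
  | zero => rfl
  | succ k ih =>
    change (a :: P k a).flatMap g = g a ++ pwd k (g a)
    rw [List.flatMap_cons, ih]

/-- `u` and `v` commute -/
def Co (β : FIC) (u v : List ℕ) : Prop := RR β (u ++ v) (v ++ u)

theorem Co.symm {u v : List ℕ} (h : Co β u v) : Co β v u := RR.symm h

theorem Co.nil (u : List ℕ) : Co β u [] := by
  unfold Co
  rw [List.append_nil, List.nil_append]
  exact RR.refl _

theorem Co.app {u v w : List ℕ} (h : Co β u v) (h' : Co β u w) : Co β u (v ++ w) := by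
  unfold Co at *
  have h1 := h.append (RR.refl w)
  have h2 := (RR.refl v).append h'
  rw [List.append_assoc, List.append_assoc] at h1
  rw [List.append_assoc]
  exact tr h1 h2

theorem Co.pw {u v : List ℕ} (h : Co β u v) (k : ℕ) : Co β u (pwd k v) := by
  induction k with
  | zero => exact Co.nil u
  | succ k ih => exact h.app ih

theorem pwd_app {u v : List ℕ} (h : Co β u v) (k : ℕ) :
    RR β (pwd k (u ++ v)) (pwd k u ++ pwd k v) := by
  induction k with
  | zero => exact RR.refl _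
  | succ k ih =>
    change RR β ((u ++ v) ++ pwd k (u ++ v)) ((u ++ pwd k u) ++ (v ++ pwd k v))
    have h1 := (RR.refl (u ++ v)).append ih
    have h2 : RR β (v ++ pwd k u) (pwd k u ++ v) := (h.symm.pw k)
    have h3 := (RR.refl u).append (h2.append (RR.refl (pwd k v)))
    simp only [List.append_assoc] at h1 h3 ⊢
    exact tr h1 h3

/-- `(n+1)`th powers of letters commute -/
def CM (n : ℕ) (β : FIC) : Prop := ∀ a b : ℕ, Co β (P (n + 1) a) (P (n + 1) b)

/-- all letters to the power `n+1` -/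
def hp (n : ℕ) (w : List ℕ) : List ℕ := w.flatMap (fun a => P (n + 1) a)

theorem hp_app (n : ℕ) (u v : List ℕ) : hp n (u ++ v) = hp n u ++ hp n v :=
  List.flatMap_append

theorem hp_co {n : ℕ} (hC : CM n β) (a : ℕ) (w : List ℕ) : Co β (P (n + 1) a) (hp n w) := by
  induction w with
  | nil => exact Co.nil _
  | cons b w ih => exact (hC a b).app ih

theorem pwd_hp {n : ℕ} (ap : RR β [0, 0] (List.replicate (n + 2) 0)) (hn : 1 ≤ n) (hC : CM n β)
    (w : List ℕ) : RR β (pwd (n + 1) (hp n w)) (hp n w) := by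
  induction w with
  | nil =>
    change RR β (pwd (n + 1) []) []
    have e : ∀ k, pwd k [] = [] := by
      intro k
      induction k with
      | zero => rfl
      | succ k ih => change [] ++ pwd k [] = []; rw [ih]; rfl
    rw [e]
    exact RR.refl _
  | cons a w ih =>
    change RR β (pwd (n + 1) (P (n + 1) a ++ hp n w)) (P (n + 1) a ++ hp n w)
    have h1 := pwd_app (hp_co hC a w) (n + 1)
    rw [pwd_P] at h1
    have h2 : RR β (P (n + 1) a) (P ((n + 1) * (n + 1)) a) := by
      have h := pwk ap a (n + 1) (n + 1) (by omega)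
      have e : n + 1 + (n + 1) * n = (n + 1) * (n + 1) := by ring
      rw [e] at h
      exact h
    exact tr h1 (h2.symm.append ih)

theorem X_eq {n : ℕ} (ap : RR β [0, 0] (List.replicate (n + 2) 0)) (hn : 1 ≤ n) (x : ℕ) :
    RR β (P (2 * n) x) (pwd n (P (n + 1) x)) := by
  rw [pwd_P]
  have h := pwk ap x (2 * n) (n - 1) (by omega)
  obtain ⟨k, rfl⟩ : ∃ k, n = k + 1 := ⟨n - 1, by omega⟩
  have e : 2 * (k + 1) + (k + 1 - 1) * (k + 1) = (k + 1) * (k + 1 + 1) := by
    rw [Nat.add_sub_cancel]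
    ring
  rw [e] at h
  exact h

theorem X_co {n : ℕ} (ap : RR β [0, 0] (List.replicate (n + 2) 0)) (hn : 1 ≤ n) (hC : CM n β)
    (x : ℕ) (w : List ℕ) : Co β (P (2 * n) x) (hp n w) := by
  have h1 : Co β (pwd n (P (n + 1) x)) (hp n w) := ((hp_co hC x w).symm.pw n).symm
  have h2 := X_eq ap hn x
  unfold Co at *
  exact tr (h2.append (RR.refl _)) (tr h1 ((RR.refl _).append h2.symm))

theorem XX {n : ℕ} (ap : RR β [0, 0] (List.replicate (n + 2) 0)) (hn : 1 ≤ n) (x : ℕ) :
    RR β (P (2 * n) x) (P (2 * n) x ++ P (2 * n) x) := by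
  rw [← List.replicate_add]
  have h := pwk ap x (2 * n) 2 (by omega)
  exact h

/-! ### markers replaced by words -/

theorem bound (l : List ℕ) : ∃ N, ∀ a ∈ l, a < N := by
  refine ⟨l.sum + 1, fun a h => ?_⟩
  have := List.single_le_sum (fun _ _ => Nat.zero_le _) _ h
  omega

/-- the substitution of the markers -/
def gm (n N : ℕ) (Z : ℕ → List ℕ) : ℕ → List ℕ := fun a => if N ≤ a then hp n (Z (a - N)) else [a]

theorem gm_id (n N : ℕ) (Z : ℕ → List ℕ) (l : List ℕ) (h : ∀ a ∈ l, a < N) :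
    l.flatMap (gm n N Z) = l := by
  induction l with
  | nil => rfl
  | cons a l ih =>
    have e : gm n N Z a = [a] := by
      unfold gm
      rw [if_neg (by have := h a List.mem_cons_self; omega)]
    rw [List.flatMap_cons, e, ih (fun b hb => h b (List.mem_cons_of_mem _ hb))]
    rfl

theorem gm_P (n N : ℕ) (Z : ℕ → List ℕ) (k i : ℕ) :
    (P k (N + i)).flatMap (gm n N Z) = pwd k (hp n (Z i)) := by
  rw [flat_P]
  unfold gm
  rw [if_pos (by omega), Nat.add_sub_cancel_left]

/-- markers replaced by words, thin runs -/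
theorem lfw {n : ℕ} (ap : RR β [0, 0] (List.replicate (n + 2) 0)) (hn : 1 ≤ n) (hC : CM n β)
    (hB : LfB n β) (m : ℕ) (z : ℕ → ℕ) (Z : ℕ → List ℕ) (p q : List ℕ) (x : ℕ)
    (out : ∀ i < m, z i ∈ p ∨ z i ∈ q) (zin : ∀ i < m, ∀ j < m, z i = z j → i = j)
    (zx : ∀ i < m, z i ≠ x) (xp : x ∉ p) (xq : x ∉ q) :
    RR β (p ++ (P 1 x ++ (wd z (fun i => hp n (Z i)) m ++ (P 1 x ++ q))))
      (p ++ (P (n + 1) x ++ (wd z (fun i => hp n (Z i)) m ++ (P (n + 1) x ++ q)))) := by
  obtain ⟨N, hN⟩ := bound (x :: (p ++ (q ++ wd z (fun _ => []) m)))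
  have Nx : x < N := hN x (by simp)
  have Np : ∀ a ∈ p, a < N := fun a ha => hN a (by simp [ha])
  have Nq : ∀ a ∈ q, a < N := fun a ha => hN a (by simp [ha])
  have Nz : ∀ i < m, z i < N := fun i hi => hN _ (by
    have := mem_wd_z (z := z) (Z := fun _ => []) hi
    simp [this])
  have h := hB m z (fun i => N + i) p q x
    { out := out
      zin := zin
      zx := zx
      xp := xp
      xq := xq
      cin := fun i _ j _ h => by omega
      cx := fun i _ => by omega
      cz := fun i _ j hj => by have := Nz j hj; omega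
      cp := fun i _ h => by have := Np _ h; omega
      cq := fun i _ h => by have := Nq _ h; omega }
  have h1 := h.sub (gm n N Z)
  have eP : ∀ k, (P k x).flatMap (gm n N Z) = P k x := fun k => gm_id n N Z _ (by
    intro a ha
    rw [List.eq_of_mem_replicate ha]
    exact Nx)
  have eW : (wd z (fun i => P (n + 1) (N + i)) m).flatMap (gm n N Z) =
      wd z (fun i => pwd (n + 1) (hp n (Z i))) m := by
    rw [wd_flat]
    · refine wd_ext (fun _ _ => rfl) (fun i _ => gm_P n N Z (n + 1) i)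
    · intro i hi
      unfold gm
      rw [if_neg (by have := Nz i hi; omega)]
  simp only [List.flatMap_append] at h1
  rw [gm_id n N Z p Np, gm_id n N Z q Nq, eP, eP, eW] at h1
  have h2 : RR β (wd z (fun i => pwd (n + 1) (hp n (Z i))) m) (wd z (fun i => hp n (Z i)) m) :=
    wd_congr (fun i _ => pwd_hp ap hn hC (Z i))
  have h3 := cx (p ++ P 1 x) (P 1 x ++ q) h2
  have h4 := cx (p ++ P (n + 1) x) (P (n + 1) x ++ q) h2
  simp only [List.append_assoc] at h3 h4
  exact tr h3.symm (tr h1 h4)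

/-- markers replaced by words, heavy runs, interior gaps -/
theorem rfw0 {n : ℕ} (ap : RR β [0, 0] (List.replicate (n + 2) 0)) (hn : 1 ≤ n) (hC : CM n β)
    (hB : RfB n β) (m : ℕ) (z : ℕ → ℕ) (Z : ℕ → List ℕ) (p q : List ℕ) (x : ℕ)
    (out : ∀ i < m, z i ∈ p ∨ z i ∈ q) (zin : ∀ i < m, ∀ j < m, z i = z j → i = j)
    (zx : ∀ i < m, z i ≠ x) (xp : x ∉ p) (xq : x ∉ q) :
    RR β (p ++ (P (2 * n) x ++ (wd z (ig m (fun i => hp n (Z i))) m ++ (P (2 * n) x ++ q))))
      (p ++ (P (2 * n) x ++ (wd z (ig m (fun i => hp n (Z i) ++ P (2 * n) x)) m ++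
        (P (2 * n) x ++ q)))) := by
  obtain ⟨N, hN⟩ := bound (x :: (p ++ (q ++ wd z (fun _ => []) m)))
  have Nx : x < N := hN x (by simp)
  have Np : ∀ a ∈ p, a < N := fun a ha => hN a (by simp [ha])
  have Nq : ∀ a ∈ q, a < N := fun a ha => hN a (by simp [ha])
  have Nz : ∀ i < m, z i < N := fun i hi => hN _ (by
    have := mem_wd_z (z := z) (Z := fun _ => []) hi
    simp [this])
  have h := hB m z (fun i => N + i) p q x
    { out := out
      zin := zin
      zx := zx
      xp := xp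
      xq := xq
      cin := fun i _ j _ h => by omega
      cx := fun i _ => by omega
      cz := fun i _ j hj => by have := Nz j hj; omega
      cp := fun i _ h => by have := Np _ h; omega
      cq := fun i _ h => by have := Nq _ h; omega }
  have h1 := h.sub (gm n N Z)
  have eP : ∀ k, (P k x).flatMap (gm n N Z) = P k x := fun k => gm_id n N Z _ (by
    intro a ha
    rw [List.eq_of_mem_replicate ha]
    exact Nx)
  have ez : ∀ i < m, gm n N Z (z i) = [z i] := by
    intro i hi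
    unfold gm
    rw [if_neg (by have := Nz i hi; omega)]
  have eW : (wd z (ig m (fun i => P (n + 1) (N + i))) m).flatMap (gm n N Z) =
      wd z (ig m (fun i => pwd (n + 1) (hp n (Z i)))) m := by
    rw [wd_flat _ ez]
    refine wd_ext (fun _ _ => rfl) (fun i _ => ?_)
    unfold ig
    by_cases h0 : i = 0 ∨ i = m
    · rw [if_pos h0, if_pos h0]; rfl
    · rw [if_neg h0, if_neg h0]
      exact gm_P n N Z (n + 1) i
  have eV : (wd z (ig m (fun i => P (n + 1) (N + i) ++ P (2 * n) x)) m).flatMap (gm n N Z) =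
      wd z (ig m (fun i => pwd (n + 1) (hp n (Z i)) ++ P (2 * n) x)) m := by
    rw [wd_flat _ ez]
    refine wd_ext (fun _ _ => rfl) (fun i _ => ?_)
    unfold ig
    by_cases h0 : i = 0 ∨ i = m
    · rw [if_pos h0, if_pos h0]; rfl
    · rw [if_neg h0, if_neg h0, List.flatMap_append, eP]
      congr 1
      exact gm_P n N Z (n + 1) i
  simp only [List.flatMap_append] at h1
  rw [gm_id n N Z p Np, gm_id n N Z q Nq, eP, eW, eV] at h1
  have h2 : RR β (wd z (ig m (fun i => pwd (n + 1) (hp n (Z i)))) m)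
      (wd z (ig m (fun i => hp n (Z i))) m) := by
    refine wd_congr (fun i _ => ?_)
    unfold ig
    by_cases h0 : i = 0 ∨ i = m
    · rw [if_pos h0, if_pos h0]; exact RR.refl _
    · rw [if_neg h0, if_neg h0]
      exact pwd_hp ap hn hC (Z i)
  have h2' : RR β (wd z (ig m (fun i => pwd (n + 1) (hp n (Z i)) ++ P (2 * n) x)) m)
      (wd z (ig m (fun i => hp n (Z i) ++ P (2 * n) x)) m) := by
    refine wd_congr (fun i _ => ?_)
    unfold ig
    by_cases h0 : i = 0 ∨ i = m
    · rw [if_pos h0, if_pos h0]; exact RR.refl _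
    · rw [if_neg h0, if_neg h0]
      exact (pwd_hp ap hn hC (Z i)).append (RR.refl _)
  have h3 := cx (p ++ P (2 * n) x) (P (2 * n) x ++ q) h2
  have h4 := cx (p ++ P (2 * n) x) (P (2 * n) x ++ q) h2'
  simp only [List.append_assoc] at h3 h4
  exact tr h3.symm (tr h1 h4)

/-- heavy runs with words in all gaps -/
theorem rfw1 {n : ℕ} (ap : RR β [0, 0] (List.replicate (n + 2) 0)) (hn : 1 ≤ n) (hC : CM n β)
    (hB : RfB n β) (m : ℕ) (z : ℕ → ℕ) (Z : ℕ → List ℕ) (p q : List ℕ) (x : ℕ)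
    (out : ∀ i < m, z i ∈ p ∨ z i ∈ q) (zin : ∀ i < m, ∀ j < m, z i = z j → i = j)
    (zx : ∀ i < m, z i ≠ x) (xp : x ∉ p) (xq : x ∉ q) (xZ : ∀ i ≤ m, x ∉ Z i) :
    RR β (p ++ (P (2 * n) x ++ (wd z (fun i => hp n (Z i)) m ++ (P (2 * n) x ++ q))))
      (p ++ (P (2 * n) x ++ (wd z (fun i => hp n (Z i) ++ P (2 * n) x) m ++
        (P (2 * n) x ++ q)))) := by
  have hxx := XX ap hn x
  have hco : ∀ w, Co β (P (2 * n) x) (hp n w) := fun w => X_co ap hn hC x w
  cases m with
  | zero =>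
    change RR β (p ++ (P (2 * n) x ++ (hp n (Z 0) ++ (P (2 * n) x ++ q))))
      (p ++ (P (2 * n) x ++ ((hp n (Z 0) ++ P (2 * n) x) ++ (P (2 * n) x ++ q))))
    have h := cx (p ++ (P (2 * n) x ++ hp n (Z 0))) q hxx
    simp only [List.append_assoc] at h ⊢
    exact h
  | succ m =>
    have xh : ∀ i ≤ m + 1, x ∉ hp n (Z i) := by
      intro i hi h
      unfold hp at h
      rw [List.mem_flatMap] at h
      obtain ⟨a, ha, h'⟩ := h
      rw [List.eq_of_mem_replicate h'] at xZ
      exact xZ i hi ha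
    have h := rfw0 ap hn hC hB (m + 1) z Z (p ++ hp n (Z 0)) (hp n (Z (m + 1)) ++ q) x
      (fun i hi => by
        rw [List.mem_append, List.mem_append]
        rcases out i hi with h | h
        · exact Or.inl (Or.inl h)
        · exact Or.inr (Or.inr h)) zin zx
      (by rw [List.mem_append, not_or]; exact ⟨xp, xh 0 (by omega)⟩)
      (by rw [List.mem_append, not_or]; exact ⟨xh (m + 1) le_rfl, xq⟩)
    rw [wd_ends z (fun i => hp n (Z i)) m, wd_ends z (fun i => hp n (Z i) ++ P (2 * n) x) m]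
    -- left side
    have l1 := cx p (wd z (ig (m + 1) (fun i => hp n (Z i))) (m + 1) ++ (hp n (Z (m + 1)) ++
      (P (2 * n) x ++ q))) (hco (Z 0))
    have l2 := cx (p ++ (hp n (Z 0) ++ (P (2 * n) x ++ wd z (ig (m + 1) (fun i => hp n (Z i)))
      (m + 1)))) q (hco (Z (m + 1))).symm
    -- right side
    have r1 : RR β (hp n (Z 0) ++ P (2 * n) x) (P (2 * n) x ++ (hp n (Z 0) ++ P (2 * n) x)) := by
      have a := (hco (Z 0)).append (RR.refl (P (2 * n) x))
      have b := (RR.refl (hp n (Z 0))).append hxx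
      simp only [List.append_assoc] at a b ⊢
      exact tr b a.symm
    have r2 : RR β (P (2 * n) x ++ hp n (Z (m + 1)))
        (hp n (Z (m + 1)) ++ (P (2 * n) x ++ P (2 * n) x)) :=
      tr (hco (Z (m + 1))) ((RR.refl _).append hxx)
    have r3 := cx p (wd z (ig (m + 1) (fun i => hp n (Z i) ++ P (2 * n) x)) (m + 1) ++
      (P (2 * n) x ++ (hp n (Z (m + 1)) ++ q))) r1
    have r4 := cx (p ++ (P (2 * n) x ++ (hp n (Z 0) ++ (P (2 * n) x ++
      wd z (ig (m + 1) (fun i => hp n (Z i) ++ P (2 * n) x)) (m + 1))))) q r2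
    simp only [List.append_assoc] at h l1 l2 r3 r4 ⊢
    exact tr l1 (tr l2 (tr h (tr r3 r4)))

end Pool.Agent.Helper96_MWV
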