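import Pool.Agent.Helper96_MWV.Runs

/-!
# From runs to all words, part 2 (MP_23468a_al)
-/

set_option autoImplicit false

namespace Pool.Agent.Helper96_MWV

open Pool.Agent.Helper14_MV Pool.Agent.Helper2_MV Pool.Agent.MVO Pool.Agent.MVO.Sys
  Pool.Agent.MWL Pool.Agent.MWS Pool.Agent.MWN Pool.Agent.MWNP

variable {β : FIC}

theorem rn_mem {x m a : ℕ} (h : a ≠ x) {l : List ℕ} (ha : a ∈ l) : a ∈ rn x m l := by
  unfold rn
  rw [List.mem_map]
  exact ⟨a, ha, if_neg h⟩

/-- heavy runs, arbitrary context -/
theorem rfw {n : ℕ} (ap : RR β [0, 0] (List.replicate (n + 2) 0)) (hn : 1 ≤ n) (hC : CM n β)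
    (hB : RfB n β) (m : ℕ) (z : ℕ → ℕ) (Z : ℕ → List ℕ) (p q : List ℕ) (x : ℕ)
    (out : ∀ i < m, z i ∈ p ∨ z i ∈ q) (zin : ∀ i < m, ∀ j < m, z i = z j → i = j)
    (zx : ∀ i < m, z i ≠ x) (xZ : ∀ i ≤ m, x ∉ Z i) :
    RR β (p ++ (P (2 * n) x ++ (wd z (fun i => hp n (Z i)) m ++ (P (2 * n) x ++ q))))
      (p ++ (P (2 * n) x ++ (wd z (fun i => hp n (Z i) ++ P (2 * n) x) m ++
        (P (2 * n) x ++ q)))) := by
  obtain ⟨s, hs⟩ := fresh (x :: (p ++ (q ++ wd z Z m)))
  simp only [List.mem_cons, List.mem_append, not_or] at hs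
  obtain ⟨sx, sp, sq, sW⟩ := hs
  have h := rfw1 ap hn hC hB m z Z (rn x s p) (rn x s q) x
    (fun i hi => by
      rcases out i hi with h | h
      · exact Or.inl (rn_mem (zx i hi) h)
      · exact Or.inr (rn_mem (zx i hi) h)) zin zx (rn_nm x s sx p) (rn_nm x s sx q) xZ
  have h1 := h.sub (bk x s)
  simp only [List.flatMap_append] at h1
  have ez : ∀ i < m, bk x s (z i) = [z i] := by
    intro i hi
    unfold bk
    rw [if_neg (fun h : z i = s => sW (by rw [← h]; exact mem_wd_z hi))]
  have eZ : ∀ i ≤ m, (hp n (Z i)).flatMap (bk x s) = hp n (Z i) := by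
    intro i hi
    refine bk_id x s _ ?_
    intro h
    unfold hp at h
    rw [List.mem_flatMap] at h
    obtain ⟨a, ha, h'⟩ := h
    exact sW (mem_wd_Z hi ((List.eq_of_mem_replicate h') ▸ ha))
  have e1 : (wd z (fun i => hp n (Z i)) m).flatMap (bk x s) = wd z (fun i => hp n (Z i)) m := by
    rw [wd_flat _ ez]
    exact wd_ext (fun _ _ => rfl) eZ
  have e2 : (wd z (fun i => hp n (Z i) ++ P (2 * n) x) m).flatMap (bk x s) =
      wd z (fun i => hp n (Z i) ++ P (2 * n) x) m := by
    rw [wd_flat _ ez]
    refine wd_ext (fun _ _ => rfl) (fun i hi => ?_)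
    rw [List.flatMap_append, eZ i hi, bk_P x s (2 * n) sx]
  rw [bk_rn x s p sp, bk_rn x s q sq, bk_P x s (2 * n) sx, e1, e2] at h1
  exact h1

/-- insertion in one gap of a heavy run -/
theorem one {n : ℕ} (ap : RR β [0, 0] (List.replicate (n + 2) 0)) (hn : 1 ≤ n) (hC : CM n β)
    (hB : RfB n β) (g k : ℕ) (z z' : ℕ → ℕ) (Z Z' : ℕ → List ℕ) (p q : List ℕ) (x : ℕ)
    (out : ∀ i < g, z i ∈ p ∨ z i ∈ q) (out' : ∀ i < k, z' i ∈ p ∨ z' i ∈ q)
    (zin : ∀ i < g, ∀ j < g, z i = z j → i = j) (zin' : ∀ i < k, ∀ j < k, z' i = z' j → i = j)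
    (zz : ∀ i < g, ∀ j < k, z i ≠ z' j) (zx : ∀ i < g, z i ≠ x) (zx' : ∀ i < k, z' i ≠ x)
    (xZ : ∀ i ≤ g, x ∉ Z i) (xZ' : ∀ i ≤ k, x ∉ Z' i) :
    RR β (p ++ (P (2 * n) x ++ (wd z (fun i => hp n (Z i)) g ++
        (wd z' (fun i => hp n (Z' i)) k ++ (P (2 * n) x ++ q)))))
      (p ++ (P (2 * n) x ++ (wd z (fun i => hp n (Z i)) g ++ (P (2 * n) x ++
        (wd z' (fun i => hp n (Z' i)) k ++ (P (2 * n) x ++ q)))))) := by
  have hxx := XX ap hn x
  have hco : ∀ w, Co β (P (2 * n) x) (hp n w) := fun w => X_co ap hn hC x w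
  -- the whole word
  have h := rfw ap hn hC hB (g + k) (fun i => if i < g then z i else z' (i - g))
    (fun i => if i < g then Z i else if i = g then Z g ++ Z' 0 else Z' (i - g)) p q x
    (fun i hi => by
      by_cases h : i < g
      · simp only [if_pos h]; exact out i h
      · simp only [if_neg h]; exact out' (i - g) (by omega))
    (fun i hi j hj => by
      by_cases h : i < g
      · by_cases h' : j < g
        · simp only [if_pos h, if_pos h']; exact zin i h j h'
        · simp only [if_pos h, if_neg h']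
          exact fun e => absurd e (zz i h (j - g) (by omega))
      · by_cases h' : j < g
        · simp only [if_neg h, if_pos h']
          exact fun e => absurd e.symm (zz j h' (i - g) (by omega))
        · simp only [if_neg h, if_neg h']
          intro e
          have := zin' (i - g) (by omega) (j - g) (by omega) e
          omega)
    (fun i hi => by
      by_cases h : i < g
      · simp only [if_pos h]; exact zx i h
      · simp only [if_neg h]; exact zx' (i - g) (by omega))
    (fun i hi => by
      by_cases h : i < g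
      · simp only [if_pos h]; exact xZ i (by omega)
      · by_cases h' : i = g
        · simp only [if_neg h, if_pos h']
          rw [List.mem_append, not_or]
          exact ⟨xZ g le_rfl, xZ' 0 (by omega)⟩
        · simp only [if_neg h, if_neg h']; exact xZ' (i - g) (by omega))
  -- the two parts
  have hu := rfw ap hn hC hB g z Z p (wd z' (fun i => hp n (Z' i)) k ++ (P (2 * n) x ++ q)) x
    (fun i hi => by
      rcases out i hi with h | h
      · exact Or.inl h
      · exact Or.inr (List.mem_append_right _ (List.mem_append_right _ h))) zin zx xZ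
  have hv := rfw ap hn hC hB k z' Z' (p ++ (P (2 * n) x ++ wd z (fun i => hp n (Z i) ++
    P (2 * n) x) g)) q x
    (fun i hi => by
      rcases out' i hi with h | h
      · exact Or.inl (List.mem_append_left _ h)
      · exact Or.inr h) zin' zx' xZ'
  -- rewriting
  have e1 : wd (fun i => if i < g then z i else z' (i - g))
      (fun i => hp n (if i < g then Z i else if i = g then Z g ++ Z' 0 else Z' (i - g))) (g + k) =
      wd z (fun i => hp n (Z i)) g ++ wd z' (fun i => hp n (Z' i)) k := by
    rw [← wd_add]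
    refine wd_ext (fun _ _ => rfl) (fun i hi => ?_)
    by_cases h : i < g
    · simp only [if_pos h]
    · by_cases h' : i = g
      · simp only [if_neg h, if_pos h', hp_app]
      · simp only [if_neg h, if_neg h']
  have e2 : RR β (wd (fun i => if i < g then z i else z' (i - g))
      (fun i => hp n (if i < g then Z i else if i = g then Z g ++ Z' 0 else Z' (i - g)) ++
        P (2 * n) x) (g + k))
      (wd z (fun i => hp n (Z i) ++ P (2 * n) x) g ++
        wd z' (fun i => hp n (Z' i) ++ P (2 * n) x) k) := by
    rw [← wd_add]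
    refine wd_congr (fun i hi => ?_)
    by_cases h : i < g
    · simp only [if_pos h]; exact RR.refl _
    · by_cases h' : i = g
      · simp only [if_neg h, if_pos h', hp_app]
        have a1 := cx (hp n (Z g)) (P (2 * n) x) (hco (Z' 0))
        have a2 := (RR.refl (hp n (Z g) ++ hp n (Z' 0))).append hxx
        simp only [List.append_assoc] at a1 a2 ⊢
        exact tr a2 a1.symm
      · simp only [if_neg h, if_neg h']; exact RR.refl _
  have e3 := cx (p ++ P (2 * n) x) (P (2 * n) x ++ q) e2
  rw [e1] at h
  -- `fill u, fill v` absorbs an `X` in the middle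
  have e4 : RR β (wd z (fun i => hp n (Z i) ++ P (2 * n) x) g)
      (wd z (fun i => hp n (Z i) ++ P (2 * n) x) g ++ P (2 * n) x) := by
    cases g with
    | zero =>
      change RR β (hp n (Z 0) ++ P (2 * n) x) ((hp n (Z 0) ++ P (2 * n) x) ++ P (2 * n) x)
      rw [List.append_assoc]
      exact cl _ hxx
    | succ g =>
      change RR β (wd z (fun i => hp n (Z i) ++ P (2 * n) x) g ++ z g :: (hp n (Z (g + 1)) ++
        P (2 * n) x)) ((wd z (fun i => hp n (Z i) ++ P (2 * n) x) g ++ z g :: (hp n (Z (g + 1)) ++
        P (2 * n) x)) ++ P (2 * n) x)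
      have a := cl (wd z (fun i => hp n (Z i) ++ P (2 * n) x) g ++ z g :: hp n (Z (g + 1))) hxx
      simp only [List.append_assoc, List.cons_append] at a ⊢
      exact a
  have e5 := cx (p ++ P (2 * n) x) (wd z' (fun i => hp n (Z' i) ++ P (2 * n) x) k ++
    (P (2 * n) x ++ q)) e4
  simp only [List.append_assoc] at h hu hv e3 e5 ⊢
  exact tr h (tr e3 (tr e5 (tr hu hv).symm))

/-! ### decomposition of a word -/

/-- decomposition with respect to a set of letters -/
theorem deco (s : ℕ → Bool) (w : List ℕ) : ∃ (m : ℕ) (z : ℕ → ℕ) (Z : ℕ → List ℕ),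
    w = wd z Z m ∧ (∀ i < m, s (z i) = true) ∧ ∀ i ≤ m, ∀ a ∈ Z i, s a = false := by
  induction w using List.reverseRecOn with
  | nil => exact ⟨0, fun _ => 0, fun _ => [], rfl, by intro i hi; omega, by simp⟩
  | append_singleton w a ih =>
    obtain ⟨m, z, Z, e, h1, h2⟩ := ih
    by_cases ha : s a = true
    · refine ⟨m + 1, fun i => if i = m then a else z i, fun i => if i = m + 1 then [] else Z i,
        ?_, ?_, ?_⟩
      · change w ++ [a] = wd _ _ m ++ (if m = m then a else z m) ::
          (if m + 1 = m + 1 then [] else Z (m + 1))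
        rw [if_pos rfl, if_pos rfl, e]
        congr 1
        refine wd_ext ?_ ?_
        · intro i hi
          exact (if_neg (by omega)).symm
        · intro i hi
          exact (if_neg (by omega)).symm
      · intro i hi
        by_cases h : i = m
        · simp only [if_pos h]; exact ha
        · simp only [if_neg h]; exact h1 i (by omega)
      · intro i hi b hb
        by_cases h : i = m + 1
        · simp only [if_pos h] at hb
          simp at hb
        · simp only [if_neg h] at hb
          exact h2 i (by omega) b hb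
    · have ha' : s a = false := by simpa using ha
      refine ⟨m, z, fun i => if i = m then Z m ++ [a] else Z i, ?_, h1, ?_⟩
      · cases m with
        | zero =>
          change w ++ [a] = (if 0 = 0 then Z 0 ++ [a] else Z 0)
          rw [if_pos rfl, e]
          rfl
        | succ m =>
          change w ++ [a] = wd z _ m ++ z m :: (if m + 1 = m + 1 then Z (m + 1) ++ [a] else
            Z (m + 1))
          rw [if_pos rfl, e]
          change (wd z Z m ++ z m :: Z (m + 1)) ++ [a] = _
          have e1 : wd z (fun i => if i = m + 1 then Z (m + 1) ++ [a] else Z i) m = wd z Z m :=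
            wd_ext (fun _ _ => rfl) (fun i hi => if_neg (by omega))
          rw [e1]
          simp only [List.append_assoc, List.cons_append]
      · intro i hi b hb
        by_cases h : i = m
        · simp only [if_pos h, List.mem_append, List.mem_singleton] at hb
          rcases hb with hb | rfl
          · exact h2 m le_rfl b hb
          · exact ha'
        · simp only [if_neg h] at hb
          exact h2 i hi b hb

theorem wd_filter (s : ℕ → Bool) {z : ℕ → ℕ} {Z : ℕ → List ℕ} : ∀ {m : ℕ},
    (∀ i < m, s (z i) = true) → (∀ i ≤ m, ∀ a ∈ Z i, s a = false) →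
    (wd z Z m).filter s = (List.range m).map z
  | 0, _, h => by
    rw [List.range_zero, List.map_nil]
    refine List.filter_eq_nil_iff.2 (fun a ha => ?_)
    rw [h 0 le_rfl a ha]
    simp
  | m + 1, h1, h2 => by
    change (wd z Z m ++ z m :: Z (m + 1)).filter s = _
    rw [List.filter_append, wd_filter s (fun i hi => h1 i (by omega))
      (fun i hi => h2 i (by omega)), List.range_succ, List.map_append, List.filter_cons,
      if_pos (h1 m (by omega))]
    have e : (Z (m + 1)).filter s = [] := by
      refine List.filter_eq_nil_iff.2 (fun a ha => ?_)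
      rw [h2 (m + 1) le_rfl a ha]
      simp
    rw [e]
    rfl

/-- the distinguished letters are distinct if they occur once -/
theorem wd_inj (s : ℕ → Bool) {z : ℕ → ℕ} {Z : ℕ → List ℕ} {m : ℕ}
    (h1 : ∀ i < m, s (z i) = true) (h2 : ∀ i ≤ m, ∀ a ∈ Z i, s a = false)
    (h3 : ∀ a, s a = true → (wd z Z m).count a ≤ 1) :
    ∀ i < m, ∀ j < m, z i = z j → i = j := by
  have hn : ((List.range m).map z).Nodup := by
    rw [← wd_filter s h1 h2, List.nodup_iff_count_le_one]
    intro a
    by_cases ha : s a = true
    · rw [List.count_filter ha]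
      exact h3 a ha
    · have : a ∉ (wd z Z m).filter s := by
        rw [List.mem_filter]
        exact fun h => ha h.2
      rw [List.count_eq_zero.2 this]
      omega
  intro i hi j hj e
  exact List.inj_on_of_nodup_map hn (List.mem_range.2 hi) (List.mem_range.2 hj) e

/-- the word with the powers of the other letters -/
theorem wd_hv (n : ℕ) (s : ℕ → Bool) {z : ℕ → ℕ} {Z : ℕ → List ℕ} {m : ℕ}
    (h1 : ∀ i < m, s (z i) = true) (h2 : ∀ i ≤ m, ∀ a ∈ Z i, s a = false) :
    (wd z Z m).flatMap (fun a => if s a then [a] else P (n + 1) a) =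
      wd z (fun i => hp n (Z i)) m := by
  rw [wd_flat _ (fun i hi => by rw [h1 i hi]; rfl)]
  refine wd_ext (fun _ _ => rfl) (fun i hi => ?_)
  unfold hp
  refine List.flatMap_congr (fun a ha => ?_)
  rw [h2 i hi a ha]
  rfl

/-! ### repeated letters become heavy -/

/-- `LT` for words `c` with at most `k` different letters -/
def LTk (n k : ℕ) (β : FIC) : Prop := ∀ (p c q : List ℕ) (x : ℕ), x ∉ c → c.toFinset.card ≤ k →
  Mul c (p ++ (P 1 x ++ (c ++ (P 1 x ++ q)))) →
    RR β (p ++ (P 1 x ++ (c ++ (P 1 x ++ q))))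
      (p ++ (P (n + 1) x ++ (c ++ (P (n + 1) x ++ q))))

/-- the letter `a` to the power `n+1` -/
def hv (n a : ℕ) (w : List ℕ) : List ℕ := w.flatMap (fun b => if b = a then P (n + 1) a else [b])

theorem hv_app (n a : ℕ) (u v : List ℕ) : hv n a (u ++ v) = hv n a u ++ hv n a v :=
  List.flatMap_append

theorem hv_id (n a : ℕ) (w : List ℕ) (h : a ∉ w) : hv n a w = w := by
  induction w with
  | nil => rfl
  | cons b w ih =>
    rw [List.mem_cons, not_or] at h
    change (if b = a then P (n + 1) a else [b]) ++ hv n a w = b :: w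
    rw [ih h.2, if_neg (fun h' => h.1 h'.symm)]
    rfl

theorem hv_one (n a : ℕ) : hv n a [a] = P (n + 1) a := by
  change (if a = a then P (n + 1) a else [a]) ++ [] = _
  rw [if_pos rfl, List.append_nil]

theorem h1 {n k : ℕ} (ap : RR β [0, 0] (List.replicate (n + 2) 0)) (hn : 1 ≤ n)
    (hL : LTk n k β) (a : ℕ) (T : Finset ℕ) (hT : T.card ≤ k + 1) (haT : a ∈ T) :
    ∀ (l : ℕ) (u p q : List ℕ), u.length ≤ l → (∀ b ∈ u, b ∈ T) →
      Mul u (p ++ (P 1 a ++ (u ++ (P 1 a ++ q)))) →
      RR β (p ++ (P 1 a ++ (u ++ (P 1 a ++ q))))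
        (p ++ (P (n + 1) a ++ (hv n a u ++ (P (n + 1) a ++ q)))) := by
  have card : ∀ u : List ℕ, a ∉ u → (∀ b ∈ u, b ∈ T) → u.toFinset.card ≤ k := by
    intro u hu hT'
    have hsub : u.toFinset ⊆ T.erase a := by
      intro b hb
      rw [List.mem_toFinset] at hb
      rw [Finset.mem_erase]
      exact ⟨fun h => hu (h ▸ hb), hT' b hb⟩
    have := Finset.card_le_card hsub
    rw [Finset.card_erase_of_mem haT] at this
    omega
  intro l
  induction l with
  | zero =>
    intro u p q hl hu hm
    obtain rfl : u = [] := List.length_eq_zero_iff.1 (by omega)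
    have h := hL p [] q a (by simp) (by simp) hm
    exact h
  | succ l ih =>
    intro u p q hl hu hm
    by_cases ha : a ∈ u
    · obtain ⟨u1, u2, rfl, h1⟩ := List.eq_append_cons_of_mem ha
      have e0 : u1 ++ a :: u2 = u1 ++ (P 1 a ++ u2) := rfl
      rw [e0] at hm ⊢
      have hm' : ∀ b, b ∈ u1 ∨ b ∈ u2 → 2 ≤ p.count b + ((P 3 a).count b + (u1.count b +
          (u2.count b + q.count b))) := by
        intro b hb
        have h := hm b (by
          rw [List.mem_append, List.mem_append]
          rcases hb with hb | hb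
          · exact Or.inl hb
          · exact Or.inr (Or.inr hb))
        simp only [List.count_append, count_P] at h ⊢
        split_ifs at h ⊢ <;> omega
      have a1 := hL p u1 (u2 ++ (P 1 a ++ q)) a h1 (card u1 h1 (fun b hb => hu b (by simp [hb])))
        (by
          intro b hb
          have h := hm' b (Or.inl hb)
          simp only [List.count_append, count_P] at h ⊢
          split_ifs at h ⊢ <;> omega)
      have a2 := ih u2 (p ++ (P (n + 1) a ++ (u1 ++ P n a))) q (by
          rw [List.length_append, List.length_cons] at hl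
          omega) (fun b hb => hu b (by simp [hb])) (by
          intro b hb
          have h := hm' b (Or.inr hb)
          simp only [List.count_append, count_P] at h ⊢
          split_ifs at h ⊢ <;> omega)
      have a3 := pc ap (p ++ (P (n + 1) a ++ u1)) (hv n a u2 ++ (P (n + 1) a ++ q)) a (n + 1)
        (n + (n + 1)) (by omega) ⟨1, by omega⟩
      have e1 : hv n a (u1 ++ (P 1 a ++ u2)) = u1 ++ (P (n + 1) a ++ hv n a u2) := by
        rw [hv_app, hv_app, hv_id n a u1 h1]
        have : hv n a (P 1 a) = P (n + 1) a := hv_one n a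
        rw [this]
      rw [e1]
      simp only [List.append_assoc, mg] at a1 a2 a3 ⊢
      exact tr a1 (tr a2 a3.symm)
    · rw [hv_id n a u ha]
      exact hL p u q a ha (card u ha hu) hm

/-- **A repeated letter becomes heavy.** -/
theorem h2 {n k : ℕ} (ap : RR β [0, 0] (List.replicate (n + 2) 0)) (hn : 1 ≤ n)
    (hL : LTk n k β) (a : ℕ) (T : Finset ℕ) (hT : T.card ≤ k + 1) (u p q : List ℕ)
    (hu : ∀ b ∈ u, b ∈ T) (ha : 2 ≤ u.count a) (hm : Mul u (p ++ (u ++ q))) :
    RR β (p ++ (u ++ q)) (p ++ (hv n a u ++ q)) := by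
  have hau : a ∈ u := List.count_pos_iff.1 (by omega)
  obtain ⟨u1, v, rfl, h1'⟩ := List.eq_append_cons_of_mem hau
  have hav : a ∈ v := by
    by_contra h
    rw [List.count_append, List.count_cons, List.count_eq_zero.2 h1', List.count_eq_zero.2 h] at ha
    simp at ha
  obtain ⟨c1, u3, e, h3, -⟩ := spl_l a v
  have hc1 : c1 ≠ [] := by
    intro h
    rw [h] at e
    have e1 : a :: v = a :: u3 := e
    injection e1 with _ e2
    exact h3 (e2 ▸ hav)
  obtain ⟨y, u2, rfl⟩ := List.exists_cons_of_ne_nil hc1
  have e' : a :: v = y :: (u2 ++ (P 1 a ++ u3)) := e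
  have e2 : v = u2 ++ (P 1 a ++ u3) := by injection e'
  subst e2
  have f0 : u1 ++ a :: (u2 ++ (P 1 a ++ u3)) = u1 ++ (P 1 a ++ (u2 ++ (P 1 a ++ u3))) := rfl
  rw [f0] at hm hu ⊢
  have h := h1 ap hn hL a T hT (hu a (by simp)) u2.length u2 (p ++ u1) (u3 ++ q) le_rfl
    (fun b hb => hu b (by simp [hb])) (by
      intro b hb
      have h := hm b (by simp [hb])
      simp only [List.count_append] at h ⊢
      omega)
  have f1 : hv n a (u1 ++ (P 1 a ++ (u2 ++ (P 1 a ++ u3)))) =
      u1 ++ (P (n + 1) a ++ (hv n a u2 ++ (P (n + 1) a ++ u3))) := by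
    have : hv n a (P 1 a) = P (n + 1) a := hv_one n a
    rw [hv_app, hv_app, hv_app, hv_app, hv_id n a u1 h1', hv_id n a u3 h3, this]
  rw [f1]
  simp only [List.append_assoc] at h ⊢
  exact h

/-- the letters of `S` to the power `n+1` -/
def hS (n : ℕ) (S w : List ℕ) : List ℕ :=
  w.flatMap (fun b => if b ∈ S then P (n + 1) b else [b])

theorem hS_app (n : ℕ) (S u v : List ℕ) : hS n S (u ++ v) = hS n S u ++ hS n S v :=
  List.flatMap_append

theorem hS_nil (n : ℕ) (w : List ℕ) : hS n [] w = w := by
  induction w with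
  | nil => rfl
  | cons b w ih =>
    change (if b ∈ [] then P (n + 1) b else [b]) ++ hS n [] w = b :: w
    rw [ih, if_neg (by simp)]
    rfl

theorem hS_mem {n : ℕ} {S w : List ℕ} {b : ℕ} (h : b ∈ hS n S w) : b ∈ w := by
  unfold hS at h
  rw [List.mem_flatMap] at h
  obtain ⟨a, ha, h'⟩ := h
  by_cases hs : a ∈ S
  · rw [if_pos hs] at h'
    exact (List.eq_of_mem_replicate h') ▸ ha
  · rw [if_neg hs, List.mem_singleton] at h'
    exact h' ▸ ha

theorem hS_count (n : ℕ) (S : List ℕ) (b : ℕ) (w : List ℕ) :
    w.count b ≤ (hS n S w).count b := by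
  induction w with
  | nil => exact le_rfl
  | cons a w ih =>
    change (a :: w).count b ≤ ((if a ∈ S then P (n + 1) a else [a]) ++ hS n S w).count b
    rw [List.count_append]
    have e : (a :: w).count b = (P 1 a).count b + w.count b := by
      change (P 1 a ++ w).count b = _
      rw [List.count_append]
    rw [e]
    by_cases hs : a ∈ S
    · rw [if_pos hs, count_P, count_P]
      split_ifs <;> omega
    · rw [if_neg hs]
      change (P 1 a).count b + w.count b ≤ (P 1 a).count b + _
      omega

theorem hS_count' (n : ℕ) (S : List ℕ) (b : ℕ) (hb : b ∉ S) (w : List ℕ) :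
    (hS n S w).count b = w.count b := by
  induction w with
  | nil => rfl
  | cons a w ih =>
    change ((if a ∈ S then P (n + 1) a else [a]) ++ hS n S w).count b = (a :: w).count b
    rw [List.count_append, ih]
    have e : (a :: w).count b = (P 1 a).count b + w.count b := by
      change (P 1 a ++ w).count b = _
      rw [List.count_append]
    rw [e]
    by_cases hs : a ∈ S
    · have hab : a ≠ b := fun h => hb (h ▸ hs)
      rw [if_pos hs, count_P, count_P, if_neg hab, if_neg hab]
    · rw [if_neg hs]
      rfl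

theorem hv_hS (n a : ℕ) (S : List ℕ) (ha : a ∉ S) (w : List ℕ) :
    hv n a (hS n S w) = hS n (a :: S) w := by
  induction w with
  | nil => rfl
  | cons b w ih =>
    change hv n a ((if b ∈ S then P (n + 1) b else [b]) ++ hS n S w) =
      (if b ∈ a :: S then P (n + 1) b else [b]) ++ hS n (a :: S) w
    rw [hv_app, ih]
    congr 1
    by_cases hs : b ∈ S
    · rw [if_pos hs, if_pos (List.mem_cons_of_mem _ hs)]
      refine hv_id n a _ ?_
      intro h
      exact ha ((List.eq_of_mem_replicate h) ▸ hs)
    · rw [if_neg hs]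
      by_cases hb : b = a
      · rw [hb, if_pos List.mem_cons_self]
        exact hv_one n a
      · rw [if_neg (by rw [List.mem_cons, not_or]; exact ⟨hb, hs⟩)]
        exact hv_id n a _ (by rw [List.mem_singleton]; exact fun h => hb h.symm)

/-- **All repeated letters become heavy.** -/
theorem n1 {n k : ℕ} (ap : RR β [0, 0] (List.replicate (n + 2) 0)) (hn : 1 ≤ n)
    (hL : LTk n k β) (u p q : List ℕ) (hT : u.toFinset.card ≤ k + 1)
    (hm : Mul u (p ++ (u ++ q))) : ∀ S : List ℕ, (∀ a ∈ S, 2 ≤ u.count a) →
      RR β (p ++ (u ++ q)) (p ++ (hS n S u ++ q)) := by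
  intro S
  induction S with
  | nil =>
    intro _
    rw [hS_nil]
    exact RR.refl _
  | cons a S ih =>
    intro hS'
    have h := ih (fun b hb => hS' b (List.mem_cons_of_mem _ hb))
    by_cases ha : a ∈ S
    · have e : hS n (a :: S) u = hS n S u := by
        unfold hS
        refine List.flatMap_congr (fun b _ => ?_)
        by_cases hb : b ∈ S
        · rw [if_pos hb, if_pos (List.mem_cons_of_mem _ hb)]
        · rw [if_neg hb, if_neg (by
            rw [List.mem_cons, not_or]
            exact ⟨fun h => hb (h ▸ ha), hb⟩)]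
      rw [e]
      exact h
    · rw [← hv_hS n a S ha]
      refine tr h (h2 ap hn hL a u.toFinset hT (hS n S u) p q ?_ ?_ ?_)
      · intro b hb
        rw [List.mem_toFinset]
        exact hS_mem hb
      · rw [hS_count' n S a ha]
        exact hS' a List.mem_cons_self
      · intro b hb
        have h := hm b (hS_mem hb)
        have h' := hS_count n S b u
        simp only [List.count_append] at h ⊢
        omega

/-! ### thin letters -/

theorem mem_of_count {b : ℕ} {p c q : List ℕ} {x : ℕ} (hbx : b ≠ x) (h1 : c.count b ≤ 1)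
    (h : 2 ≤ (p ++ (P 1 x ++ (c ++ (P 1 x ++ q)))).count b) : b ∈ p ∨ b ∈ q := by
  by_contra hcon
  rw [not_or] at hcon
  simp only [List.count_append, count_P, if_neg (fun h : x = b => hbx h.symm),
    List.count_eq_zero.2 hcon.1, List.count_eq_zero.2 hcon.2] at h
  omega

/-- **`LT` for all words from thin runs.** -/
theorem ltk {n : ℕ} (ap : RR β [0, 0] (List.replicate (n + 2) 0)) (hn : 1 ≤ n) (hC : CM n β)
    (hB : LfB n β) : ∀ k : ℕ, LTk n k β := by
  -- the context does not contain `x`
  have main : ∀ (k : ℕ), (k = 0 ∨ LTk n (k - 1) β) → ∀ (p c q : List ℕ) (x : ℕ), x ∉ p → x ∉ q →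
      x ∉ c → c.toFinset.card ≤ k → Mul c (p ++ (P 1 x ++ (c ++ (P 1 x ++ q)))) →
      RR β (p ++ (P 1 x ++ (c ++ (P 1 x ++ q))))
        (p ++ (P (n + 1) x ++ (c ++ (P (n + 1) x ++ q)))) := by
    intro k hk p c q x xp xq xc hck hm
    -- heavy repeated letters
    have step : ∀ (p' q' : List ℕ), Mul c (p' ++ (c ++ q')) →
        RR β (p' ++ (c ++ q')) (p' ++ (hS n (c.filter (fun a => decide (2 ≤ c.count a))) c ++ q')) := by
      intro p' q' hm'
      rcases hk with rfl | hk
      · have hc : c = [] := by
          by_contra hne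
          obtain ⟨y, c', rfl⟩ := List.exists_cons_of_ne_nil hne
          have : y ∈ (y :: c').toFinset := by simp
          have := Finset.card_pos.2 ⟨y, this⟩
          omega
        subst hc
        exact RR.refl _
      · rcases Nat.eq_zero_or_pos k with rfl | hk0
        · have hc : c = [] := by
            by_contra hne
            obtain ⟨y, c', rfl⟩ := List.exists_cons_of_ne_nil hne
            have : y ∈ (y :: c').toFinset := by simp
            have := Finset.card_pos.2 ⟨y, this⟩
            omega
          subst hc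
          exact RR.refl _
        · refine n1 ap hn hk c p' q' (by omega) hm' _ ?_
          intro a ha
          rw [List.mem_filter] at ha
          simpa using ha.2
    -- the decomposition
    obtain ⟨m, z, Z, e, z1, z2⟩ := deco (fun a => decide (c.count a ≤ 1)) c
    have ehS : hS n (c.filter (fun a => decide (2 ≤ c.count a))) c =
        wd z (fun i => hp n (Z i)) m := by
      rw [← wd_hv n (fun a => decide (c.count a ≤ 1)) z1 z2, ← e]
      unfold hS
      refine List.flatMap_congr (fun a ha => ?_)
      by_cases h : c.count a ≤ 1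
      · rw [if_neg (by rw [List.mem_filter]; simp; omega), if_pos (by simpa using h)]
      · rw [if_pos (by rw [List.mem_filter]; simp; exact ⟨ha, by omega⟩),
          if_neg (by simpa using h)]
    have zc : ∀ i < m, z i ∈ c := fun i hi => by rw [e]; exact mem_wd_z hi
    have zx : ∀ i < m, z i ≠ x := fun i hi h => xc (h ▸ zc i hi)
    have out : ∀ i < m, z i ∈ p ∨ z i ∈ q := fun i hi =>
      mem_of_count (zx i hi) (by simpa using z1 i hi) (hm _ (zc i hi))
    have zin := wd_inj (fun a => decide (c.count a ≤ 1)) z1 z2 (by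
      intro a ha
      rw [← e]
      simpa using ha)
    have a1 := step (p ++ P 1 x) (P 1 x ++ q) (by
      intro a ha
      have h := hm a ha
      simp only [List.count_append] at h ⊢
      omega)
    have a2 := step (p ++ P (n + 1) x) (P (n + 1) x ++ q) (by
      intro a ha
      have h := hm a ha
      have ax : x ≠ a := fun h => xc (h ▸ ha)
      simp only [List.count_append, count_P, if_neg ax] at h ⊢
      omega)
    rw [ehS] at a1 a2
    have a3 := lfw ap hn hC hB m z Z p q x out zin zx xp xq
    simp only [List.append_assoc] at a1 a2 a3 ⊢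
    exact tr a1 (tr a3 a2.symm)
  -- general context
  have gen : ∀ (k : ℕ), (k = 0 ∨ LTk n (k - 1) β) → LTk n k β := by
    intro k hk p c q x hc hck hm
    obtain ⟨m, hmf⟩ := fresh (x :: (p ++ (c ++ q)))
    simp only [List.mem_cons, List.mem_append, not_or] at hmf
    obtain ⟨mx, mp, mc, mq⟩ := hmf
    have h := main k hk (rn x m p) c (rn x m q) x (rn_nm x m mx p) (rn_nm x m mx q) hc hck (by
      intro a ha
      have h1 := hm a ha
      have ax : a ≠ x := fun h => hc (h ▸ ha)
      have am : a ≠ m := fun h => mc (h ▸ ha)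
      simp only [List.count_append] at h1 ⊢
      rw [rn_ct x m a ax am, rn_ct x m a ax am]
      exact h1)
    have h1 := h.sub (bk x m)
    simp only [List.flatMap_append] at h1
    rw [bk_rn x m p mp, bk_rn x m q mq, bk_id x m c mc, bk_P x m 1 mx, bk_P x m (n + 1) mx] at h1
    exact h1
  intro k
  induction k with
  | zero => exact gen 0 (Or.inl rfl)
  | succ k ih => exact gen (k + 1) (Or.inr ih)

theorem lt_of {n : ℕ} (ap : RR β [0, 0] (List.replicate (n + 2) 0)) (hn : 1 ≤ n) (hC : CM n β)
    (hB : LfB n β) : LT n β := by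
  intro p c q x _ hc _ hm
  exact ltk ap hn hC hB c.toFinset.card p c q x hc le_rfl hm

/-- **`HF` for all words from heavy runs and `LT`.** -/
theorem hf_of {n : ℕ} (ap : RR β [0, 0] (List.replicate (n + 2) 0)) (hn : 1 ≤ n) (hC : CM n β)
    (hL : LfB n β) (hB : RfB n β) : HF n β := by
  intro p c d q x xp xc xd xq hm
  -- heavy repeated letters
  have step : ∀ (u p' q' : List ℕ) (S : List ℕ), Mul u (p' ++ (u ++ q')) →
      (∀ a ∈ S, 2 ≤ u.count a) → RR β (p' ++ (u ++ q')) (p' ++ (hS n S u ++ q')) := by
    intro u p' q' S hm' hS'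
    exact n1 ap hn (ltk ap hn hC hL u.toFinset.card) u p' q' (by omega) hm' S hS'
  -- the decompositions
  have hs : ∀ w : List ℕ, (∀ a ∈ w, a ∈ c ++ d) →
      hS n ((c ++ d).filter (fun a => decide (2 ≤ (c ++ d).count a))) w =
        w.flatMap (fun a => if decide ((c ++ d).count a ≤ 1) then [a] else P (n + 1) a) := by
    intro w hw
    unfold hS
    refine List.flatMap_congr (fun a ha => ?_)
    by_cases h : (c ++ d).count a ≤ 1
    · rw [if_neg (by rw [List.mem_filter]; simp only [decide_eq_true_eq]; omega),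
        if_pos (by simpa only [decide_eq_true_eq] using h)]
    · rw [if_pos (by
        rw [List.mem_filter]
        simp only [decide_eq_true_eq]
        exact ⟨hw a ha, by omega⟩), if_neg (by simpa only [decide_eq_true_eq] using h)]
  obtain ⟨g, z, Z, e, z1, z2⟩ := deco (fun a => decide ((c ++ d).count a ≤ 1)) c
  obtain ⟨k, z', Z', e', z1', z2'⟩ := deco (fun a => decide ((c ++ d).count a ≤ 1)) d
  have ec : hS n ((c ++ d).filter (fun a => decide (2 ≤ (c ++ d).count a))) c =
      wd z (fun i => hp n (Z i)) g := by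
    rw [hs c (fun a ha => List.mem_append_left _ ha),
      ← wd_hv n (fun a => decide ((c ++ d).count a ≤ 1)) z1 z2, ← e]
  have ed : hS n ((c ++ d).filter (fun a => decide (2 ≤ (c ++ d).count a))) d =
      wd z' (fun i => hp n (Z' i)) k := by
    rw [hs d (fun a ha => List.mem_append_right _ ha),
      ← wd_hv n (fun a => decide ((c ++ d).count a ≤ 1)) z1' z2', ← e']
  have zc : ∀ i < g, z i ∈ c := fun i hi => by rw [e]; exact mem_wd_z hi
  have zd : ∀ i < k, z' i ∈ d := fun i hi => by rw [e']; exact mem_wd_z hi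
  have zx : ∀ i < g, z i ≠ x := fun i hi h => xc (h ▸ zc i hi)
  have zx' : ∀ i < k, z' i ≠ x := fun i hi h => xd (h ▸ zd i hi)
  have om : ∀ b, b ≠ x → (c ++ d).count b ≤ 1 → b ∈ c ++ d → b ∈ p ∨ b ∈ q := by
    intro b hbx hb1 hb
    have h := hm b hb
    by_contra hcon
    rw [not_or] at hcon
    rw [List.count_append] at hb1
    simp only [List.count_append, count_P, if_neg (fun h : x = b => hbx h.symm),
      List.count_eq_zero.2 hcon.1, List.count_eq_zero.2 hcon.2] at h
    omega
  have k1 : ∀ i < g, (c ++ d).count (z i) ≤ 1 := fun i hi => by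
    simpa only [decide_eq_true_eq] using z1 i hi
  have k2 : ∀ i < k, (c ++ d).count (z' i) ≤ 1 := fun i hi => by
    simpa only [decide_eq_true_eq] using z1' i hi
  have zin := wd_inj (fun a => decide ((c ++ d).count a ≤ 1)) z1 z2 (by
    intro a ha
    rw [← e]
    simp only [decide_eq_true_eq] at ha
    rw [List.count_append] at ha
    omega)
  have zin' := wd_inj (fun a => decide ((c ++ d).count a ≤ 1)) z1' z2' (by
    intro a ha
    rw [← e']
    simp only [decide_eq_true_eq] at ha
    rw [List.count_append] at ha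
    omega)
  have zz : ∀ i < g, ∀ j < k, z i ≠ z' j := by
    intro i hi j hj h
    have h1 := k1 i hi
    rw [List.count_append] at h1
    have h2 := List.count_pos_iff.2 (zc i hi)
    have h3 := List.count_pos_iff.2 (zd j hj)
    rw [← h] at h3
    omega
  have b1 := one ap hn hC hB g k z z' Z Z' p q x
    (fun i hi => om _ (zx i hi) (k1 i hi) (List.mem_append_left _ (zc i hi)))
    (fun i hi => om _ (zx' i hi) (k2 i hi) (List.mem_append_right _ (zd i hi)))
    zin zin' zz zx zx'
    (fun i hi h => xc (by rw [e]; exact mem_wd_Z hi h))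
    (fun i hi h => xd (by rw [e']; exact mem_wd_Z hi h))
  rw [← ec, ← ed] at b1
  -- heavy letters in `c d`
  have a1 := step (c ++ d) (p ++ P (2 * n) x) (P (2 * n) x ++ q)
    ((c ++ d).filter (fun a => decide (2 ≤ (c ++ d).count a))) (by
      intro a ha
      have h := hm a ha
      simp only [List.count_append] at h ⊢
      omega) (by
      intro a ha
      rw [List.mem_filter] at ha
      simpa only [decide_eq_true_eq] using ha.2)
  -- heavy letters in `c X d`
  have a2 := step (c ++ (P (2 * n) x ++ d)) (p ++ P (2 * n) x) (P (2 * n) x ++ q)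
    ((c ++ d).filter (fun a => decide (2 ≤ (c ++ d).count a))) (by
      intro a ha
      rw [List.mem_append, List.mem_append] at ha
      by_cases hax : a = x
      · rw [hax]
        simp only [List.count_append, count_P, if_true]
        omega
      · have ha' : a ∈ c ++ d := by
          rw [List.mem_append]
          rcases ha with ha | ha | ha
          · exact Or.inl ha
          · exact absurd (List.eq_of_mem_replicate ha) hax
          · exact Or.inr ha
        have h := hm a ha'
        simp only [List.count_append] at h ⊢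
        omega) (by
      intro a ha
      rw [List.mem_filter] at ha
      have h : 2 ≤ (c ++ d).count a := by simpa only [decide_eq_true_eq] using ha.2
      simp only [List.count_append] at h ⊢
      omega)
  have ex : hS n ((c ++ d).filter (fun a => decide (2 ≤ (c ++ d).count a))) (P (2 * n) x) =
      P (2 * n) x := by
    have hxS : x ∉ (c ++ d).filter (fun a => decide (2 ≤ (c ++ d).count a)) := by
      rw [List.mem_filter, List.mem_append]
      rintro ⟨h | h, -⟩
      · exact xc h
      · exact xd h
    have : ∀ j, hS n ((c ++ d).filter (fun a => decide (2 ≤ (c ++ d).count a))) (P j x) =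
        P j x := by
      intro j
      induction j with
      | zero => rfl
      | succ j ih =>
        change (if x ∈ _ then P (n + 1) x else [x]) ++ hS n _ (P j x) = x :: P j x
        rw [if_neg hxS, ih]
        rfl
    exact this (2 * n)
  rw [hS_app] at a1
  rw [hS_app, hS_app, ex] at a2
  simp only [List.append_assoc] at a1 a2 b1 ⊢
  exact tr a1 (tr b1 a2.symm)

/-! ### commutation of heavy letters -/

theorem hst0 {n : ℕ} (hH : HBP n β) (u v : List ℕ) (hu : ∀ c ∈ u, c = 0 ∨ c = 1)
    (hv : ∀ c ∈ v, c = 0 ∨ c = 1) (u0 : 2 ≤ u.count 0) (u1 : 2 ≤ u.count 1)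
    (v0 : 2 ≤ v.count 0) (v1 : 2 ≤ v.count 1) (m0 : u.count 0 = v.count 0)
    (m1 : u.count 1 = v.count 1) (su : [0, 1].Sublist u ∧ [1, 0].Sublist u)
    (sv : [0, 1].Sublist v ∧ [1, 0].Sublist v) : RR β u v := by
  have ok : ∀ u : List ℕ, (∀ c ∈ u, c = 0 ∨ c = 1) → 2 ≤ u.count 0 → 2 ≤ u.count 1 →
      OkB 0 (fun _ => u) := by
    intro u hu u0 u1
    constructor
    · intro j hj c hc
      unfold NS
      rcases hu c hc with rfl | rfl <;> omega
    · intro j hj c hc
      unfold deg
      simp only [zero_add, Finset.sum_range_one]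
      rcases hu c hc with rfl | rfl
      · exact u0
      · exact u1
  refine hH.hst 0 (fun _ => u) (fun _ => v) (ok u hu u0 u1) (ok v hv v0 v1)
    (fun _ _ c hc => hu c hc) (fun _ _ c hc => hv c hc) (fun _ _ => Or.inl m0)
    (fun _ _ => Or.inl m1) ?_
  intro i _ _
  unfold Fst
  constructor
  · simp only [Bool.false_eq_true, if_false]
    exact ⟨fun h => absurd su.2 h, fun h => absurd sv.2 h⟩
  · simp only [if_true]
    exact ⟨fun h => absurd su.1 h, fun h => absurd sv.1 h⟩

theorem cm01 {n : ℕ} (hH : HBP n β) (h0 : RR β [0, 0, 1, 1] [1, 1, 0, 0]) :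
    Co β (P (n + 1) 0) (P (n + 1) 1) := by
  have hn := hH.pos
  have g0 : ∀ a, RR β (P (n + 1) a) (P (2 * n + 1) a) := fun a => by
    have h := pwk hH.ap a (n + 1) 1 (by omega)
    have e : n + 1 + 1 * n = 2 * n + 1 := by omega
    rw [e] at h
    exact h
  have e2 : ∀ a : ℕ, P (2 * n + 1) a = P (2 * n - 1) a ++ P 2 a := fun a => by
    rw [← List.replicate_add]
    congr 1
    omega
  have e3 : ∀ a : ℕ, P (2 * n + 1) a = P 2 a ++ P (2 * n - 1) a := fun a => by
    rw [← List.replicate_add]
    congr 1
    omega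
  have k1 : RR β (P 2 0 ++ P 2 1) (P 2 1 ++ P 2 0) := h0
  -- `0^(2n+1) 1^(2n+1) ≈ 0^(2n-1) 1100 1^(2n-1)`
  have a1 : RR β (P (2 * n + 1) 0 ++ P (2 * n + 1) 1)
      (P (2 * n - 1) 0 ++ (P 2 1 ++ (P 2 0 ++ P (2 * n - 1) 1))) := by
    rw [e2 0, e3 1]
    have h := cx (P (2 * n - 1) 0) (P (2 * n - 1) 1) k1
    simp only [List.append_assoc] at h ⊢
    exact h
  have a2 : RR β (P (2 * n + 1) 1 ++ P (2 * n + 1) 0)
      (P (2 * n - 1) 1 ++ (P 2 0 ++ (P 2 1 ++ P (2 * n - 1) 0))) := by
    rw [e2 1, e3 0]
    have h := cx (P (2 * n - 1) 1) (P (2 * n - 1) 0) k1.symm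
    simp only [List.append_assoc] at h ⊢
    exact h
  have ps : ∀ (j a : ℕ), 1 ≤ j → [a].Sublist (P j a) := by
    intro j a hj
    rw [List.singleton_sublist, List.mem_replicate]
    exact ⟨by omega, rfl⟩
  have a3 : RR β (P (2 * n - 1) 0 ++ (P 2 1 ++ (P 2 0 ++ P (2 * n - 1) 1)))
      (P (2 * n - 1) 1 ++ (P 2 0 ++ (P 2 1 ++ P (2 * n - 1) 0))) := by
    refine hst0 hH _ _ ?_ ?_ ?_ ?_ ?_ ?_ ?_ ?_ ⟨?_, ?_⟩ ⟨?_, ?_⟩
    · intro c hc
      simp only [List.mem_append, List.mem_replicate] at hc
      omega
    · intro c hc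
      simp only [List.mem_append, List.mem_replicate] at hc
      omega
    · simp only [List.count_append, count_P]
      norm_num
    · simp only [List.count_append, count_P]
      norm_num
    · simp only [List.count_append, count_P]
      norm_num
    · simp only [List.count_append, count_P]
      norm_num
    · simp only [List.count_append, count_P]
      norm_num
      omega
    · simp only [List.count_append, count_P]
      norm_num
      omega
    · have h := (ps (2 * n - 1) 0 (by omega)).append ((ps 2 1 (by omega)).trans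
        (List.sublist_append_left (P 2 1) (P 2 0 ++ P (2 * n - 1) 1)))
      exact h
    · have h := ((ps 2 1 (by omega)).append ((ps 2 0 (by omega)).trans
        (List.sublist_append_left (P 2 0) (P (2 * n - 1) 1)))).trans
        (List.sublist_append_right (P (2 * n - 1) 0) _)
      exact h
    · have h := ((ps 2 0 (by omega)).append ((ps 2 1 (by omega)).trans
        (List.sublist_append_left (P 2 1) (P (2 * n - 1) 0)))).trans
        (List.sublist_append_right (P (2 * n - 1) 1) _)
      exact h
    · have h := (ps (2 * n - 1) 1 (by omega)).append ((ps 2 0 (by omega)).trans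
        (List.sublist_append_left (P 2 0) (P 2 1 ++ P (2 * n - 1) 0)))
      exact h
  exact tr ((g0 0).append (g0 1)) (tr a1 (tr a3 (tr a2.symm ((g0 1).symm.append (g0 0).symm))))

/-- `(n+1)`th powers commute -/
theorem cm_of {n : ℕ} (hH : HBP n β) (h0 : RR β [0, 0, 1, 1] [1, 1, 0, 0]) : CM n β := by
  intro a b
  have h := (cm01 hH h0 : RR β (P (n + 1) 0 ++ P (n + 1) 1) (P (n + 1) 1 ++ P (n + 1) 0))
  have h1 := h.sub (fun i => if i = 0 then [a] else [b])
  rw [List.flatMap_append, List.flatMap_append, flat_P, flat_P] at h1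
  have e0 : (if (0 : ℕ) = 0 then [a] else [b]) = P 1 a := rfl
  have e1 : (if (1 : ℕ) = 0 then [a] else [b]) = P 1 b := rfl
  rw [e0, e1, pwd_P, pwd_P, Nat.mul_one] at h1
  exact h1

/-- **`I1`, `I2` for all words from thin and heavy runs.** -/
theorem i12r {n : ℕ} (hB : HBP n β) (h0 : RR β [0, 0, 1, 1] [1, 1, 0, 0]) (hL : LfB n β)
    (hR : RfB n β) : MWZ.I1 n (RR β) ∧ MWZ.I2 (RR β) :=
  have hC := cm_of hB h0
  i12 hB (lt_of hB.ap hB.pos hC hL) (hf_of hB.ap hB.pos hC hL hR)

end Pool.Agent.Helper96_MWV
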